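import Pool.Agent.R30.C4.Data

set_option autoImplicit false

/-! Finite checks. -/

namespace Pool.Agent.R30.C4

def cX (i : ℕ) : ℕ := (bigX >>> (20 * i)) % 1048576
def cY (i : ℕ) : ℕ := (bigY >>> (20 * i)) % 1048576
def cW (i : ℕ) : ℕ := (bigW >>> (20 * i)) % 1048576

/-- positive part of the determinant -/
def dp (i j k : ℕ) : ℕ := cX i * cY j * cW k + cY i * cX k * cW j + cW i * cX j * cY k
/-- negative part of the determinant -/
def dm (i j k : ℕ) : ℕ := cX i * cY k * cW j + cY i * cX j * cW k + cW i * cX k * cY j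

/-- strictly counterclockwise -/
def posB (i j k : ℕ) : Bool := Nat.blt (dm i j k) (dp i j k)

/-- adjacency -/
def adjB (a b : ℕ) : Bool := Nat.testBit bigA (32 * a + b)

/-- the segments `a b` and `c d` have no common point outside `a b c d` (sufficient condition) -/
def sepB (a b c d : ℕ) : Bool :=
  (posB a b c && posB a b d) || (posB b a c && posB b a d) ||
  (posB c d a && posB c d b) || (posB d c a && posB d c b) ||
  (Nat.beq a c && (posB a b d || posB b a d)) || (Nat.beq a d && (posB a b c || posB b a c)) ||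
  (Nat.beq b c && (posB a b d || posB b a d)) || (Nat.beq b d && (posB a b c || posB b a c))

/-- the ordered crossing pairs -/
def crossP : List ((ℕ × ℕ) × (ℕ × ℕ)) :=
  crossL.map (fun x => ((x.1.1, x.1.2.1), (x.2.1.1, x.2.1.2.1))) ++
  crossL.map (fun x => ((x.2.1.1, x.2.1.2.1), (x.1.1, x.1.2.1)))

/-- `x` divides the segment `a c` in the ratio `q : p` -/
def divB (a c p q x : ℕ) : Bool :=
  Nat.blt 0 p && Nat.blt 0 q && Nat.beq ((p + q) * cX x) (cW x * (p * cX a + q * cX c)) &&
    Nat.beq ((p + q) * cY x) (cW x * (p * cY a + q * cY c))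

/-- the vertex `w` is off the segment `u v` -/
def offB (u v w : ℕ) : Bool :=
  posB u v w || posB v u w ||
    Nat.blt (cX w * (cX u + cX v) + cY w * (cY u + cY v))
      (cX w * cX w + cX u * cX v + (cY w * cY w + cY u * cY v))

lemma k_w : ∀ i < 42, 0 < cW i := by decide +kernel
lemma k_w1 : ∀ i < 27, cW i = 1 := by decide +kernel

lemma k_pos : cellsL.all (fun x => posB x.1 x.2.1 x.2.2) = true := by decide +kernel
lemma k_opos : outsL.all (fun x => posB x.1 x.2.1 x.2.2) = true := by decide +kernel
lemma k_rot : cellsL.all (fun x => cellsL.contains (x.2.1, x.2.2, x.1)) = true := by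
  decide +kernel
lemma k_orot : outsL.all (fun x => outsL.contains (x.2.1, x.2.2, x.1)) = true := by
  decide +kernel
lemma k_lt : cellsL.all (fun x => Nat.blt x.1 42) = true := by decide +kernel
lemma k_olt : outsL.all (fun x => Nat.blt x.1 27) = true := by decide +kernel
lemma k_mate : cellsL.all (fun x => cellsL.any (fun y => Nat.beq y.1 x.2.1 && Nat.beq y.2.1 x.1) ||
    outsL.any (fun y => Nat.beq y.1 x.1 && Nat.beq y.2.1 x.2.1)) = true := by decide +kernel
lemma k_omate : outsL.all (fun x => cellsL.any (fun y => Nat.beq y.1 x.1 && Nat.beq y.2.1 x.2.1))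
    = true := by decide +kernel

/-- injectivity of the points -/
lemma k_inj : ∀ i < 42, ∀ j < i, ¬ (cX i * cW j = cX j * cW i ∧ cY i * cW j = cY j * cW i) := by
  decide +kernel

/-- real vertices in closed cells are corners -/
lemma k_corner : cellsL.all (fun x => (List.range 27).all (fun w =>
    Nat.beq w x.1 || Nat.beq w x.2.1 || Nat.beq w x.2.2 || posB x.2.1 x.1 w ||
    posB x.2.2 x.2.1 w || posB x.1 x.2.2 w)) = true := by decide +kernel

lemma k_ocorner : outsL.all (fun x => (List.range 27).all (fun w =>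
    Nat.beq w x.1 || Nat.beq w x.2.1 || Nat.beq w x.2.2 || (posB x.1 x.2.1 w &&
    posB x.2.1 x.2.2 w && posB x.2.2 x.1 w))) = true := by decide +kernel

/-- a cell next to a cell across a side with real ends: one of the tips is a crossing -/
lemma k_tips : cellsL.all (fun x => !(Nat.blt x.1 27 && Nat.blt x.2.1 27) || cellsL.all (fun y =>
    !(Nat.beq y.1 x.2.1 && Nat.beq y.2.1 x.1) || Nat.blt 26 x.2.2 || Nat.blt 26 y.2.2)) = true := by
  decide +kernel

lemma k_otips : outsL.all (fun x => cellsL.all (fun y =>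
    !(Nat.beq y.1 x.1 && Nat.beq y.2.1 x.2.1) || Nat.blt 26 y.2.2)) = true := by
  decide +kernel

/-- real sides of cells are edges -/
lemma k_adj : cellsL.all (fun x => !(Nat.blt x.1 27 && Nat.blt x.2.1 27) || adjB x.1 x.2.1) = true
    := by decide +kernel
lemma k_oadj : outsL.all (fun x => adjB x.1 x.2.1) = true := by decide +kernel

/-- adjacency and the edge list -/
lemma k_symm : ∀ a < 27, ∀ b < 27, adjB a b = adjB b a := by decide +kernel
lemma k_irrefl : ∀ a < 27, adjB a a = false := by decide +kernel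
lemma k_edges : ∀ b < 27, ∀ a < b, adjB a b = edgesL.contains (a, b) := by decide +kernel
lemma k_elt : edgesL.all (fun x => Nat.blt x.1 x.2 && Nat.blt x.2 27) = true := by decide +kernel
lemma k_len : edgesL.length = 90 := by decide +kernel
lemma k_nodup : edgesL.Nodup := by decide +kernel

/-- edges avoid the other vertices -/
lemma k_off : edgesL.all (fun e => (List.range 27).all (fun w =>
    Nat.beq w e.1 || Nat.beq w e.2 || offB e.1 e.2 w)) = true := by decide +kernel

/-- two edges that are not a crossing pair meet in common ends only -/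
lemma k_sep : edgesL.all (fun e => edgesL.all (fun f => (Nat.beq e.1 f.1 && Nat.beq e.2 f.2) ||
    sepB e.1 e.2 f.1 f.2 || crossP.contains (e, f))) = true := by decide +kernel

lemma k_crossE : crossP.all (fun x => edgesL.contains x.1) = true := by decide +kernel
lemma k_crossFun : crossP.all (fun x => crossP.all (fun y => !(x.1 == y.1) || x.2 == y.2)) = true
    := by decide +kernel
lemma k_crossNe : crossP.all (fun x => !(x.1 == x.2)) = true := by decide +kernel
lemma k_div : crossL.all (fun x => divB x.1.1 x.1.2.1 x.1.2.2.1 x.1.2.2.2 x.2.2 &&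
    divB x.2.1.1 x.2.1.2.1 x.2.1.2.2.1 x.2.1.2.2.2 x.2.2 && Nat.blt x.2.2 42 &&
    Nat.blt 26 x.2.2 && (posB x.1.1 x.1.2.1 x.2.1.1 || posB x.1.2.1 x.1.1 x.2.1.1)) = true := by
  decide +kernel
lemma k_crossIdx : ∀ i < 42, 27 ≤ i → crossL.any (fun x => Nat.beq x.2.2 i) = true := by
  decide +kernel

/-- a side of a cell with a crossing corner lies on a diagonal -/
lemma k_carrier : cellsL.all (fun x => (Nat.blt x.1 27 && Nat.blt x.2.1 27) ||
    crossL.any (fun y =>
      (Nat.beq x.1 y.2.2 && (Nat.beq x.2.1 y.1.1 || Nat.beq x.2.1 y.1.2.1 ||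
        Nat.beq x.2.1 y.2.1.1 || Nat.beq x.2.1 y.2.1.2.1)) ||
      (Nat.beq x.2.1 y.2.2 && (Nat.beq x.1 y.1.1 || Nat.beq x.1 y.1.2.1 ||
        Nat.beq x.1 y.2.1.1 || Nat.beq x.1 y.2.1.2.1)))) = true := by decide +kernel

/-- path check -/
def pathB (s t : ℕ) : List ℕ → Bool
  | [] => adjB s t
  | x :: l => Nat.blt x 27 && adjB s x && pathB x t l

/-- path systems are correct: five paths with disjoint interiors -/
lemma k_sys : sysL.all (fun x => (x.2.2.all (fun l => pathB x.1 x.2.1 l)) &&
    (x.2.2.flatten.all (fun w => !(Nat.beq w x.1) && !(Nat.beq w x.2.1))) &&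
    decide (x.2.2.flatten.Nodup) && Nat.beq x.2.2.length 5) = true := by decide +kernel

lemma k_sysAll : ∀ t < 27, ∀ s < t, adjB s t = true ∨
    sysL.any (fun x => Nat.beq x.1 s && Nat.beq x.2.1 t) = true := by decide +kernel

end Pool.Agent.R30.C4
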