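import Mathlib

set_option autoImplicit false

/-! Data of the example: points, cells, edges, crossings and path systems. -/

namespace Pool.Agent.R30.C4


/-- packed first homogeneous coordinates -/
def bigX : ℕ := 4523777877728126228568522641165587851329884962917379901509547698654383599227974951006578740205739285067159822309669986715035094561494239502529870018957671276448764031534577046773921949833939762036001603734976750837215388595329591044624756388906663962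

/-- packed second homogeneous coordinates -/
def bigY : ℕ := 1782947176539504165846373671101168497826445724424638278384067479912487725006625743763009400243099364878241610575385576409092112989846083393423874095336152551669575227435964104966683016349197661883266334915736387899291683469679676155113759699166560285

/-- packed denominators -/
def bigW : ℕ := 132846784866133726235259322992114984352832173041281359122584246519059941521740759244625289551967941628301347079891866995153406205501376800472850071204852620283905294568627034699103512462037078884989112481279492277436898341015409014601648305414864897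

/-- packed adjacency table -/
def bigA : ℕ := 1321352431833213570899746128894461085847822582775087367766456204288972416703465600610823204297850422220642385046210013491781398724406318596883513988362124224163931843369943410634693635531687236603594524029641116491630143994559863167496890852398134177972618758

/-- cells with rotations -/
def cellsL : List (ℕ × ℕ × ℕ) :=
   [(0, 1, 2), (1, 2, 0), (2, 0, 1), (3, 4, 5), (4, 5, 3), (5, 3, 4), (6, 7, 8), (7, 8, 6), (8,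
   6, 7), (9, 0, 10), (0, 10, 9), (10, 9, 0), (11, 2, 12), (2, 12, 11), (12, 11, 2), (11, 4, 13),
   (4, 13, 11), (13, 11, 4), (14, 15, 7), (15, 7, 14), (7, 14, 15), (16, 17, 18), (17, 18, 16),
   (18, 16, 17), (19, 1, 20), (1, 20, 19), (20, 19, 1), (21, 11, 16), (11, 16, 21), (16, 21, 11),
   (22, 23, 14), (23, 14, 22), (14, 22, 23), (20, 9, 18), (9, 18, 20), (18, 20, 9), (21, 6, 5),
   (6, 5, 21), (5, 21, 6), (15, 13, 24), (13, 24, 15), (24, 15, 13), (12, 19, 17), (19, 17, 12),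
   (17, 12, 19), (13, 23, 25), (23, 25, 13), (25, 13, 23), (26, 22, 10), (22, 10, 26), (10, 26,
   22), (24, 3, 8), (3, 8, 24), (8, 24, 3), (25, 26, 2), (26, 2, 25), (2, 25, 26), (0, 9, 27),
   (9, 27, 0), (27, 0, 9), (9, 20, 27), (20, 27, 9), (27, 9, 20), (20, 1, 27), (1, 27, 20), (27,
   20, 1), (1, 0, 27), (0, 27, 1), (27, 1, 0), (1, 19, 28), (19, 28, 1), (28, 1, 19), (19, 12,
   28), (12, 28, 19), (28, 19, 12), (12, 2, 28), (2, 28, 12), (28, 12, 2), (2, 1, 28), (1, 28,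
   2), (28, 2, 1), (2, 26, 29), (26, 29, 2), (29, 2, 26), (26, 10, 29), (10, 29, 26), (29, 26,
   10), (10, 0, 29), (0, 29, 10), (29, 10, 0), (0, 2, 29), (2, 29, 0), (29, 0, 2), (3, 24, 30),
   (24, 30, 3), (30, 3, 24), (24, 13, 30), (13, 30, 24), (30, 24, 13), (13, 4, 30), (4, 30, 13),
   (30, 13, 4), (4, 3, 30), (3, 30, 4), (30, 4, 3), (4, 11, 31), (11, 31, 4), (31, 4, 11), (11,
   21, 31), (21, 31, 11), (31, 11, 21), (21, 5, 31), (5, 31, 21), (31, 21, 5), (5, 4, 31), (4,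
   31, 5), (31, 5, 4), (5, 6, 32), (6, 32, 5), (32, 5, 6), (6, 8, 32), (8, 32, 6), (32, 6, 8),
   (8, 3, 32), (3, 32, 8), (32, 8, 3), (3, 5, 32), (5, 32, 3), (32, 3, 5), (6, 21, 33), (21, 33,
   6), (33, 6, 21), (21, 14, 33), (14, 33, 21), (33, 21, 14), (14, 7, 33), (7, 33, 14), (33, 14,
   7), (7, 6, 33), (6, 33, 7), (33, 7, 6), (7, 15, 34), (15, 34, 7), (34, 7, 15), (15, 24, 34),
   (24, 34, 15), (34, 15, 24), (24, 8, 34), (8, 34, 24), (34, 24, 8), (8, 7, 34), (7, 34, 8),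
   (34, 8, 7), (10, 22, 35), (22, 35, 10), (35, 10, 22), (22, 14, 35), (14, 35, 22), (35, 22,
   14), (14, 9, 35), (9, 35, 14), (35, 14, 9), (9, 10, 35), (10, 35, 9), (35, 9, 10), (11, 13,
   36), (13, 36, 11), (36, 11, 13), (13, 25, 36), (25, 36, 13), (36, 13, 25), (25, 2, 36), (2,
   36, 25), (36, 25, 2), (2, 11, 36), (11, 36, 2), (36, 2, 11), (12, 17, 37), (17, 37, 12), (37,
   12, 17), (17, 16, 37), (16, 37, 17), (37, 17, 16), (16, 11, 37), (11, 37, 16), (37, 16, 11),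
   (11, 12, 37), (12, 37, 11), (37, 11, 12), (14, 23, 38), (23, 38, 14), (38, 14, 23), (23, 13,
   38), (13, 38, 23), (38, 23, 13), (13, 15, 38), (15, 38, 13), (38, 13, 15), (15, 14, 38), (14,
   38, 15), (38, 15, 14), (17, 19, 39), (19, 39, 17), (39, 17, 19), (19, 20, 39), (20, 39, 19),
   (39, 19, 20), (20, 18, 39), (18, 39, 20), (39, 20, 18), (18, 17, 39), (17, 39, 18), (39, 18,
   17), (18, 9, 40), (9, 40, 18), (40, 18, 9), (9, 21, 40), (21, 40, 9), (40, 9, 21), (21, 16,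
   40), (16, 40, 21), (40, 21, 16), (16, 18, 40), (18, 40, 16), (40, 16, 18), (22, 26, 41), (26,
   41, 22), (41, 22, 26), (26, 25, 41), (25, 41, 26), (41, 26, 25), (25, 23, 41), (23, 41, 25),
   (41, 25, 23), (23, 22, 41), (22, 41, 23), (41, 23, 22)]

/-- outer triangle with rotations -/
def outsL : List (ℕ × ℕ × ℕ) :=
   [(9, 21, 14), (21, 14, 9), (14, 9, 21)]

/-- edges -/
def edgesL : List (ℕ × ℕ) :=
   [(0, 1), (0, 2), (0, 9), (0, 10), (0, 20), (0, 26), (1, 2), (1, 9), (1, 12), (1, 19), (1, 20),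
   (2, 10), (2, 11), (2, 12), (2, 13), (2, 19), (2, 25), (2, 26), (3, 4), (3, 5), (3, 6), (3, 8),
   (3, 13), (3, 24), (4, 5), (4, 11), (4, 13), (4, 21), (4, 24), (5, 6), (5, 8), (5, 11), (5,
   21), (6, 7), (6, 8), (6, 14), (6, 21), (7, 8), (7, 14), (7, 15), (7, 21), (7, 24), (8, 15),
   (8, 24), (9, 10), (9, 14), (9, 16), (9, 18), (9, 20), (9, 21), (9, 22), (10, 14), (10, 22),
   (10, 26), (11, 12), (11, 13), (11, 16), (11, 17), (11, 21), (11, 25), (12, 16), (12, 17), (12,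
   19), (13, 14), (13, 15), (13, 23), (13, 24), (13, 25), (14, 15), (14, 21), (14, 22), (14, 23),
   (15, 23), (15, 24), (16, 17), (16, 18), (16, 21), (17, 18), (17, 19), (17, 20), (18, 19), (18,
   20), (18, 21), (19, 20), (22, 23), (22, 25), (22, 26), (23, 25), (23, 26), (25, 26)]

/-- crossing pairs `(a, c, p, q), (b, d, r, s), x` -/
def crossL : List ((ℕ × ℕ × ℕ × ℕ) × (ℕ × ℕ × ℕ × ℕ) × ℕ) :=
   [((0, 20, 29, 32), (1, 9, 48, 13), 27), ((1, 12, 20, 13), (2, 19, 3, 8), 28), ((2, 10, 17,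
   28), (0, 26, 26, 19), 29), ((3, 13, 7, 4), (4, 24, 6, 5), 30), ((4, 21, 3, 1), (5, 11, 3, 1),
   31), ((5, 8, 1, 1), (3, 6, 1, 1), 32), ((6, 14, 52, 15), (7, 21, 52, 15), 33), ((7, 24, 1, 2),
   (8, 15, 8, 7), 34), ((10, 14, 337, 70), (9, 22, 119, 288), 35), ((11, 25, 7, 18), (2, 13, 34,
   41), 36), ((12, 16, 18, 7), (11, 17, 17, 33), 37), ((13, 14, 93, 43), (15, 23, 12, 5), 38),
   ((17, 20, 1, 1), (18, 19, 1, 1), 39), ((18, 21, 285, 37), (9, 16, 15, 31), 40), ((22, 25, 11,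
   8), (23, 26, 29, 28), 41)]

/-- path systems -/
def sysL : List (ℕ × ℕ × List (List ℕ)) :=
   [(0, 3, [[26, 23, 15, 8], [10, 14, 6], [9, 21, 5], [2, 13], [1, 12, 11, 4]]), (0, 4, [[26, 23,
   15, 24], [10, 14, 6, 3], [9, 21], [2, 13], [1, 12, 11]]), (0, 5, [[26, 23, 15, 8], [10, 14,
   6], [9, 21], [2, 13, 3], [1, 12, 11]]), (0, 6, [[26, 23, 15, 7], [10, 14], [9, 21], [2, 13,
   3], [1, 12, 11, 5]]), (0, 7, [[26, 23, 15], [10, 14], [9, 21], [2, 13, 24], [1, 12, 11, 5,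
   6]]), (0, 8, [[26, 23, 15], [10, 14, 6], [9, 21, 7], [2, 13, 3], [1, 12, 11, 5]]), (0, 11,
   [[26, 25], [20, 17], [9, 16], [2], [1, 12]]), (0, 12, [[26, 25, 11], [20, 17], [9, 16], [2],
   [1]]), (0, 13, [[26, 23], [10, 22, 25], [9, 14], [2], [1, 12, 11]]), (0, 14, [[26, 22], [20,
   18, 21], [10], [9], [2, 13]]), (0, 15, [[26, 23], [10, 14], [9, 21, 7], [2, 13], [1, 12, 11,
   4, 24]]), (0, 16, [[20, 17], [10, 14, 21], [9], [2, 11], [1, 12]]), (0, 17, [[20], [10, 14,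
   21, 18], [9, 16], [2, 11], [1, 12]]), (0, 18, [[20], [10, 14, 21], [9], [2, 11, 16], [1,
   19]]), (0, 19, [[26, 25, 11, 12], [20], [9, 18], [2], [1]]), (0, 21, [[20, 18], [10, 14], [9],
   [2, 11], [1, 12, 16]]), (0, 22, [[26], [20, 18, 21, 14], [10], [9], [2, 25]]), (0, 23, [[26],
   [10, 22], [9, 14], [2, 13], [1, 12, 11, 25]]), (0, 24, [[26, 23, 15], [10, 14, 7], [9, 21, 5,
   3], [2, 13], [1, 12, 11, 4]]), (0, 25, [[26], [10, 14, 13], [9, 22], [2], [1, 12, 11]]), (1,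
   3, [[19, 18, 21, 5], [12, 11, 4], [9, 14, 6], [2, 13], [0, 26, 23, 15, 8]]), (1, 4, [[19, 18,
   21], [12, 11], [9, 22, 23, 15, 24], [2, 13], [0, 10, 14, 6, 3]]), (1, 5, [[19, 18, 21], [12,
   11], [9, 22, 23, 15, 8], [2, 13, 3], [0, 10, 14, 6]]), (1, 6, [[19, 17, 11, 5], [12, 16, 21],
   [9, 14], [2, 13, 3], [0, 26, 23, 15, 7]]), (1, 7, [[19, 18, 21], [12, 11, 5, 6], [9, 14], [2,
   13, 24], [0, 26, 23, 15]]), (1, 8, [[19, 18, 21, 7], [12, 11, 5], [9, 14, 6], [2, 13, 3], [0,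
   26, 23, 15]]), (1, 10, [[19, 18, 21, 14], [12, 11, 13, 23, 22], [9], [2], [0]]), (1, 11, [[19,
   17], [12], [9, 16], [2], [0, 26, 25]]), (1, 13, [[19, 18, 21, 4], [12, 11], [9, 14], [2], [0,
   26, 23]]), (1, 14, [[19, 18, 21], [12, 11, 5, 6], [9], [2, 13], [0, 10]]), (1, 15, [[19, 18,
   21, 7], [12, 11, 4, 24], [9, 14], [2, 13], [0, 26, 23]]), (1, 16, [[20, 18], [19, 17], [12],
   [9], [2, 11]]), (1, 17, [[20], [19], [12], [9, 16], [2, 11]]), (1, 18, [[20], [19], [12, 16],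
   [9], [2, 11, 17]]), (1, 21, [[19, 18], [12, 16], [9], [2, 11], [0, 10, 14]]), (1, 22, [[19,
   18, 21, 14], [12, 11, 13, 23], [9], [2, 25], [0, 10]]), (1, 23, [[19, 18, 21, 7, 15], [12, 11,
   25], [9, 14], [2, 13], [0, 26]]), (1, 24, [[19, 18, 21, 5, 3], [12, 11, 4], [9, 14, 7], [2,
   13], [0, 26, 23, 15]]), (1, 25, [[19, 18, 21, 4, 13], [12, 11], [9, 22], [2], [0, 26]]), (1,
   26, [[19, 18, 21, 14, 22], [12, 11, 25], [9, 10], [2], [0]]), (2, 3, [[25, 23, 15, 8], [13],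
   [11, 4], [10, 14, 6], [0, 9, 21, 5]]), (2, 4, [[25, 23, 15, 24], [13], [11], [10, 14, 6, 3],
   [0, 9, 21]]), (2, 5, [[25, 23, 15, 8], [13, 3], [11], [10, 14, 6], [0, 9, 21]]), (2, 6, [[25,
   23, 15, 7], [13, 3], [11, 5], [10, 14], [0, 9, 21]]), (2, 7, [[25, 23, 15], [13, 24], [11, 5,
   6], [10, 14], [0, 9, 21]]), (2, 8, [[25, 23, 15], [13, 3], [11, 5], [10, 14, 6], [0, 9, 21,
   7]]), (2, 9, [[13, 14], [11, 16], [10], [1], [0]]), (2, 14, [[25, 22], [13], [11, 21], [10],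
   [0, 9]]), (2, 15, [[25, 23], [13], [11, 4, 24], [10, 14], [0, 9, 21, 7]]), (2, 16, [[19, 17],
   [12], [11], [1, 20, 18], [0, 9]]), (2, 17, [[19], [12], [11], [1, 9, 16], [0, 20]]), (2, 18,
   [[19], [12, 17], [11, 16], [1, 20], [0, 9]]), (2, 20, [[19], [11, 17], [10, 9], [1], [0]]),
   (2, 21, [[13, 4], [12, 16], [11], [10, 14], [0, 9]]), (2, 22, [[26], [25], [13, 14], [10], [0,
   9]]), (2, 23, [[26], [25], [13], [10, 14], [0, 9, 22]]), (2, 24, [[25, 23, 15], [13], [11, 4],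
   [10, 14, 7], [0, 9, 21, 5, 3]]), (3, 7, [[24], [13, 14], [8], [6], [4, 21]]), (3, 9, [[13, 2,
   0], [8, 15, 23, 22], [6, 14], [5, 11, 16], [4, 21]]), (3, 10, [[13, 2], [8, 15, 23, 26], [6,
   14], [5, 11, 25, 22], [4, 21, 9]]), (3, 11, [[13], [8, 15, 23, 25], [6, 21], [5], [4]]), (3,
   12, [[13, 2], [8, 15, 23, 26, 0, 20, 17], [6, 14, 9, 1], [5, 21, 16], [4, 11]]), (3, 14, [[24,
   15], [13], [8, 7], [6], [4, 21]]), (3, 15, [[24], [13], [8], [6, 7], [4, 21, 14]]), (3, 16,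
   [[13, 2, 12], [8, 15, 23, 26, 0, 20, 17], [6, 14, 9], [5, 21], [4, 11]]), (3, 17, [[13, 2,
   12], [8, 15, 23, 26, 0, 20], [6, 14, 9, 18], [5, 21, 16], [4, 11]]), (3, 18, [[13, 2, 19], [8,
   15, 23, 26, 0, 20], [6, 14, 9], [5, 11, 16], [4, 21]]), (3, 19, [[13, 2], [8, 15, 23, 26, 0,
   20], [6, 14, 9, 1], [5, 21, 18], [4, 11, 12]]), (3, 20, [[13, 2, 1], [8, 15, 23, 26, 0], [6,
   14, 9], [5, 21, 18], [4, 11, 17]]), (3, 21, [[13, 11], [8, 7], [6], [5], [4]]), (3, 22, [[13,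
   2, 10], [8, 15, 23], [6, 14], [5, 21, 9], [4, 11, 25]]), (3, 23, [[13], [8, 15], [6, 14], [5,
   21, 9, 22], [4, 11, 25]]), (3, 25, [[13], [8, 15, 23], [6, 14, 22], [5, 21, 9, 0, 2], [4,
   11]]), (3, 26, [[13, 2], [8, 15, 23], [6, 14, 10], [5, 21, 9, 0], [4, 11, 25]]), (4, 6, [[24,
   7], [21], [13, 14], [5], [3]]), (4, 7, [[24], [21], [13, 14], [5, 8], [3, 6]]), (4, 8, [[24],
   [21, 6], [13, 15], [5], [3]]), (4, 9, [[24, 15, 23, 22], [21], [13, 2, 0], [11, 16], [3, 6,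
   14]]), (4, 10, [[24, 15, 23, 22], [21, 9], [13, 25, 26], [11, 2], [3, 6, 14]]), (4, 12, [[24,
   15, 23, 26, 0, 20, 17], [21, 16], [13, 2], [11], [3, 6, 14, 9, 1]]), (4, 14, [[24, 7], [21],
   [13], [5, 8, 15], [3, 6]]), (4, 15, [[24], [21, 7], [13], [5, 6, 14], [3, 8]]), (4, 16, [[24,
   15, 23, 26, 0, 20, 17], [21], [13, 2, 12], [11], [3, 6, 14, 9]]), (4, 17, [[24, 15, 23, 26, 0,
   20], [21, 16], [13, 2, 12], [11], [3, 6, 14, 9, 18]]), (4, 18, [[24, 15, 23, 26, 0, 20], [21],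
   [13, 2, 19], [11, 16], [3, 6, 14, 9]]), (4, 19, [[24, 15, 23, 26, 0, 20], [21, 18], [13, 2],
   [11, 12], [3, 6, 14, 9, 1]]), (4, 20, [[24, 15, 23, 26, 0], [21, 18], [13, 2, 1], [11, 17],
   [3, 6, 14, 9]]), (4, 22, [[24, 15, 23], [21, 9], [13, 2, 10], [11, 25], [3, 6, 14]]), (4, 23,
   [[24, 15], [21, 9, 22], [13], [11, 25], [3, 6, 14]]), (4, 25, [[24, 15, 23], [21, 9, 22],
   [13], [11], [3, 6, 14, 10, 2]]), (4, 26, [[24, 15, 23], [21, 9, 0], [13, 25], [11, 2], [3, 6,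
   14, 10]]), (5, 7, [[21], [8], [6], [4, 13, 14], [3, 24]]), (5, 9, [[21], [11, 16], [8, 15, 23,
   22], [6, 14], [3, 13, 2, 0]]), (5, 10, [[21, 9], [11, 2], [8, 15, 23, 22], [6, 14], [3, 13,
   25, 26]]), (5, 12, [[21, 16], [11], [8, 15, 23, 26, 0, 20, 17], [6, 14, 9, 1], [3, 13, 2]]),
   (5, 13, [[11], [8, 15], [6, 14], [4], [3]]), (5, 14, [[21], [8, 7], [6], [4, 24, 15], [3,
   13]]), (5, 15, [[21, 14], [8], [6, 7], [4, 24], [3, 13]]), (5, 16, [[21], [11], [8, 15, 23,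
   26, 0, 20, 17], [6, 14, 9], [3, 13, 2, 12]]), (5, 17, [[21, 16], [11], [8, 15, 23, 26, 0, 20],
   [6, 14, 9, 18], [3, 13, 2, 12]]), (5, 18, [[21], [11, 16], [8, 15, 23, 26, 0, 20], [6, 14, 9],
   [3, 13, 2, 19]]), (5, 19, [[21, 18], [11, 12], [8, 15, 23, 26, 0, 20], [6, 14, 9, 1], [3, 13,
   2]]), (5, 20, [[21, 18], [11, 17], [8, 15, 23, 26, 0], [6, 14, 9], [3, 13, 2, 1]]), (5, 22,
   [[21, 9], [11, 25], [8, 15, 23], [6, 14], [3, 13, 2, 10]]), (5, 23, [[21, 9, 22], [11, 25],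
   [8, 15], [6, 14], [3, 13]]), (5, 24, [[11, 13], [8], [6, 7], [4], [3]]), (5, 25, [[21, 9, 0,
   2], [11], [8, 15, 23], [6, 14, 22], [3, 13]]), (5, 26, [[21, 9, 0], [11, 2], [8, 15, 23], [6,
   14, 10], [3, 13, 25]]), (6, 9, [[21], [14], [7, 15, 23, 22], [5, 11, 16], [3, 13, 2, 0]]), (6,
   10, [[21, 9], [14], [7, 15, 23, 26], [5, 11, 25, 22], [3, 13, 2]]), (6, 11, [[21], [14, 13],
   [7, 15, 23, 25], [5], [3, 4]]), (6, 12, [[21, 16], [14, 9, 1], [7, 15, 23, 26, 0, 20, 17], [5,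
   11], [3, 13, 2]]), (6, 13, [[14], [8, 24], [7, 15], [5, 4], [3]]), (6, 15, [[14], [8], [7],
   [5, 4, 24], [3, 13]]), (6, 16, [[21], [14, 9], [7, 15, 23, 26, 0, 20, 17], [5, 11], [3, 13, 2,
   12]]), (6, 17, [[21, 16], [14, 9, 18], [7, 15, 23, 26, 0, 20], [5, 11], [3, 13, 2, 12]]), (6,
   18, [[21], [14, 9], [7, 15, 23, 26, 0, 20], [5, 11, 16], [3, 13, 2, 19]]), (6, 19, [[21, 18],
   [14, 9, 1], [7, 15, 23, 26, 0, 20], [5, 11, 12], [3, 13, 2]]), (6, 20, [[21, 18], [14, 9], [7,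
   15, 23, 26, 0], [5, 11, 17], [3, 13, 2, 1]]), (6, 22, [[21, 9], [14], [7, 15, 23], [5, 11,
   25], [3, 13, 2, 10]]), (6, 23, [[21, 9, 22], [14], [7, 15], [5, 11, 25], [3, 13]]), (6, 24,
   [[14, 13], [8], [7], [5, 4], [3]]), (6, 25, [[21, 9, 0, 2], [14, 22], [7, 15, 23], [5, 11],
   [3, 13]]), (6, 26, [[21, 9, 0], [14, 10], [7, 15, 23], [5, 11, 25], [3, 13, 2]]), (7, 9, [[24,
   13, 2, 0], [21], [15, 23, 22], [14], [6, 5, 11, 16]]), (7, 10, [[24, 13, 2], [21, 9], [15, 23,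
   22], [14], [6, 5, 11, 25, 26]]), (7, 11, [[24, 4], [21], [15, 23, 25], [14, 13], [6, 5]]), (7,
   12, [[24, 13, 2], [21, 16], [15, 23, 26, 0, 20, 17], [14, 9, 1], [6, 5, 11]]), (7, 13, [[24],
   [21, 4], [15], [14], [6, 3]]), (7, 16, [[24, 13, 2, 12], [21], [15, 23, 26, 0, 20, 17], [14,
   9], [6, 5, 11]]), (7, 17, [[24, 13, 2, 12], [21, 18], [15, 23, 26, 0, 20], [14, 9, 16], [6, 5,
   11]]), (7, 18, [[24, 13, 2, 19], [21], [15, 23, 26, 0, 20], [14, 9], [6, 5, 11, 16]]), (7, 19,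
   [[24, 13, 2], [21, 18], [15, 23, 26, 0, 20], [14, 9, 1], [6, 5, 11, 12]]), (7, 20, [[24, 13,
   2, 1], [21, 18], [15, 23, 26, 0], [14, 9], [6, 5, 11, 17]]), (7, 22, [[24, 13, 25], [21, 9],
   [15, 23], [14], [6, 5, 11, 2, 10]]), (7, 23, [[24, 13], [21, 9, 22], [15], [14], [6, 5, 11,
   25]]), (7, 25, [[24, 13], [21, 9, 0, 2], [15, 23], [14, 22], [6, 5, 11]]), (7, 26, [[24, 13,
   2], [21, 9, 0], [15, 23], [14, 10], [6, 5, 11, 25]]), (8, 9, [[24, 13, 2, 0], [15, 23, 22],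
   [6, 14], [5, 21], [3, 4, 11, 16]]), (8, 10, [[15, 23, 22], [7, 21, 9], [6, 14], [5, 11, 25,
   26], [3, 13, 2]]), (8, 11, [[15, 13], [7, 14, 9, 16], [6, 21], [5], [3, 4]]), (8, 12, [[15,
   23, 26, 0, 20, 17], [7, 14, 9, 1], [6, 21, 16], [5, 11], [3, 13, 2]]), (8, 13, [[24], [15],
   [6, 14], [5, 4], [3]]), (8, 14, [[15], [7], [6], [5, 21], [3, 13]]), (8, 16, [[15, 23, 26, 0,
   20, 17], [7, 14, 9], [6, 21], [5, 11], [3, 13, 2, 12]]), (8, 17, [[15, 23, 26, 0, 20], [7, 14,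
   9, 18], [6, 21, 16], [5, 11], [3, 13, 2, 12]]), (8, 18, [[24, 13, 2, 19], [15, 23, 26, 0, 20],
   [6, 14, 9], [5, 21], [3, 4, 11, 16]]), (8, 19, [[15, 23, 26, 0, 20], [7, 14, 9, 1], [6, 21,
   18], [5, 11, 12], [3, 13, 2]]), (8, 20, [[15, 23, 26, 0], [7, 21, 18], [6, 14, 9], [5, 11,
   17], [3, 13, 2, 1]]), (8, 21, [[15, 14], [7], [6], [5], [3, 4]]), (8, 22, [[15, 23], [7, 21,
   9], [6, 14], [5, 11, 2, 10], [3, 13, 25]]), (8, 23, [[15], [7, 21, 9, 22], [6, 14], [5, 11,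
   25], [3, 13]]), (8, 25, [[15, 23], [7, 21, 9, 0, 2], [6, 14, 22], [5, 11], [3, 13]]), (8, 26,
   [[15, 23], [7, 21, 9, 0], [6, 14, 10], [5, 11, 25], [3, 13, 2]]), (9, 11, [[21], [16], [14,
   13], [1, 12], [0, 2]]), (9, 12, [[20, 19], [18, 17], [16], [1], [0, 2]]), (9, 13, [[22, 23],
   [21, 4], [16, 11], [14], [0, 2]]), (9, 15, [[22, 23], [21, 7], [16, 11, 4, 24], [14], [0, 2,
   13]]), (9, 17, [[21, 11], [20], [18], [16], [1, 12]]), (9, 19, [[20], [18], [16, 12], [1], [0,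
   2]]), (9, 23, [[22], [16, 11, 25], [14], [1, 2, 13], [0, 26]]), (9, 24, [[22, 23, 15], [21,
   4], [16, 11, 5, 3], [14, 7], [0, 2, 13]]), (9, 25, [[22], [16, 11], [14, 13], [10, 26], [0,
   2]]), (9, 26, [[22], [14, 23], [10], [1, 2], [0]]), (10, 11, [[22, 25], [14, 13], [9, 16],
   [2], [0, 1, 12]]), (10, 12, [[22, 23, 13, 11], [14, 21, 18, 17], [9, 16], [2], [0, 1]]), (10,
   13, [[26, 25], [22, 23], [14], [9, 16, 11], [2]]), (10, 15, [[26, 25, 11, 4, 24], [22, 23],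
   [14], [9, 21, 7], [2, 13]]), (10, 16, [[22, 25, 11], [14, 21], [9], [2, 19, 17], [0, 1, 12]]),
   (10, 17, [[22, 25, 11], [14, 21, 18], [9, 16], [2, 12], [0, 20]]), (10, 18, [[22, 25, 11, 16],
   [14, 21], [9], [2, 19], [0, 20]]), (10, 19, [[22, 23, 13, 11, 12], [14, 21, 16, 17], [9, 18],
   [2], [0, 1]]), (10, 20, [[22, 25, 11, 17], [14, 21, 18], [9], [2, 1], [0]]), (10, 21, [[22,
   23, 13, 4], [14], [9], [2, 11], [0, 20, 18]]), (10, 23, [[26], [22], [14], [9, 16, 11, 25],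
   [2, 13]]), (10, 24, [[26, 25, 11, 5, 3], [22, 23, 15], [14, 7], [9, 21, 4], [2, 13]]), (10,
   25, [[26], [22], [14, 13], [9, 16, 11], [2]]), (11, 14, [[21], [16, 9], [13], [5, 6], [2,
   10]]), (11, 15, [[25, 23], [21, 7], [13], [5, 8], [4, 24]]), (11, 18, [[21], [17], [16], [12,
   1, 9], [2, 19]]), (11, 19, [[21, 9, 1], [17], [16, 18], [12], [2]]), (11, 20, [[21, 18], [17],
   [16, 9], [12, 1], [2, 0]]), (11, 22, [[25], [21, 14], [16, 9], [13, 23], [2, 10]]), (11, 23,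
   [[25], [21, 14], [13], [4, 24, 15], [2, 26]]), (11, 24, [[25, 23, 15], [21, 7], [13], [5, 3],
   [4]]), (11, 26, [[25], [16, 9, 10], [13, 23], [12, 1, 0], [2]]), (12, 13, [[17, 20, 0, 26,
   23], [16, 21, 4], [11], [2], [1, 9, 14]]), (12, 14, [[17, 20, 0, 26, 22], [16, 21], [11, 13],
   [2, 10], [1, 9]]), (12, 15, [[17, 20, 0, 26, 23], [16, 21, 7], [11, 4, 24], [2, 13], [1, 9,
   14]]), (12, 18, [[19], [17], [16], [11, 21], [1, 9]]), (12, 20, [[19], [17], [16, 9], [2, 0],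
   [1]]), (12, 21, [[17, 18], [16], [11], [2, 10, 14], [1, 9]]), (12, 22, [[17, 20, 0, 26], [16,
   21, 14], [11, 25], [2, 10], [1, 9]]), (12, 23, [[17, 18, 21, 7, 15], [16, 9, 14], [11, 25],
   [2, 13], [1, 0, 26]]), (12, 24, [[17, 20, 0, 26, 23, 15], [16, 21, 7], [11, 4], [2, 13], [1,
   9, 14, 6, 3]]), (12, 25, [[17, 18, 21, 4, 13], [16, 9, 22], [11], [2], [1, 0, 26]]), (12, 26,
   [[17, 18, 21, 14, 22], [16, 9, 10], [11, 25], [2], [1, 0]]), (13, 16, [[23, 26, 0, 20, 17],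
   [14, 9], [11], [4, 21], [2, 12]]), (13, 17, [[23, 26, 0, 20], [14, 9, 18], [11], [4, 21, 16],
   [2, 12]]), (13, 18, [[23, 26, 0, 20], [14, 9], [11, 16], [4, 21], [2, 19]]), (13, 19, [[23,
   26, 0, 20], [14, 9, 1], [11, 12], [4, 21, 18], [2]]), (13, 20, [[23, 26, 0], [14, 9], [11,
   17], [4, 21, 18], [2, 1]]), (13, 21, [[15, 7], [14], [11], [4], [3, 5]]), (13, 22, [[25],
   [23], [14], [4, 21, 9], [2, 10]]), (13, 26, [[25], [23], [14, 10], [4, 21, 9, 0], [2]]), (14,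
   16, [[22, 26, 0, 20, 17], [21], [13, 11], [10, 2, 12], [9]]), (14, 17, [[22, 25, 2, 12], [21,
   18], [13, 11], [10, 0, 20], [9, 16]]), (14, 18, [[21], [13, 2, 19], [10, 0, 20], [9], [6, 5,
   11, 16]]), (14, 19, [[22, 26, 0, 20], [21, 18], [13, 11, 12], [10, 2], [9, 1]]), (14, 20,
   [[21, 18], [13, 2, 1], [10, 0], [9], [6, 5, 11, 17]]), (14, 24, [[21, 4], [15], [13], [7], [6,
   3]]), (14, 25, [[23], [22], [21, 11], [13], [10, 2]]), (14, 26, [[23], [22], [13, 2], [10],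
   [9, 0]]), (15, 16, [[23, 26, 0, 20, 17], [14, 9], [13, 2, 12], [8, 5, 11], [7, 21]]), (15, 17,
   [[23, 26, 0, 20], [14, 9, 18], [13, 2, 12], [8, 5, 11], [7, 21, 16]]), (15, 18, [[23, 26, 0,
   20], [14, 9], [13, 2, 19], [8, 5, 11, 16], [7, 21]]), (15, 19, [[23, 26, 0, 20], [14, 9, 1],
   [13, 2], [8, 5, 11, 12], [7, 21, 18]]), (15, 20, [[23, 26, 0], [14, 9], [13, 2, 1], [8, 5, 11,
   17], [7, 21, 18]]), (15, 21, [[23, 22, 9], [14], [13, 4], [8, 5], [7]]), (15, 22, [[23], [14],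
   [13, 25], [8, 5, 11, 2, 10], [7, 21, 9]]), (15, 25, [[23], [14, 22], [13], [8, 5, 11], [7, 21,
   9, 0, 2]]), (15, 26, [[23], [14, 10], [13, 2], [8, 5, 11, 25], [7, 21, 9, 0]]), (16, 19,
   [[18], [17], [12], [11, 2], [9, 1]]), (16, 20, [[18], [17], [12, 1], [11, 2, 0], [9]]), (16,
   22, [[21, 14], [17, 20, 0, 26], [12, 2, 10], [11, 25], [9]]), (16, 23, [[21, 7, 15], [17, 20,
   0, 26], [12, 2, 25], [11, 13], [9, 14]]), (16, 24, [[21, 7], [17, 20, 0, 26, 23, 15], [12, 2,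
   13], [11, 4], [9, 14, 6, 3]]), (16, 25, [[21, 4, 13], [17, 20, 0, 26], [12, 2], [11], [9,
   22]]), (16, 26, [[21, 14, 10], [17, 20, 0], [12, 2], [11, 25], [9, 22]]), (17, 21, [[20, 9],
   [18], [16], [12, 2, 10, 14], [11]]), (17, 22, [[20, 0, 26], [18, 21, 14], [16, 9], [12, 2,
   10], [11, 25]]), (17, 23, [[20, 0, 26], [18, 21, 7, 15], [16, 9, 14], [12, 2, 25], [11, 13]]),
   (17, 24, [[20, 0, 26, 23, 15], [18, 9, 14, 6, 3], [16, 21, 7], [12, 2, 13], [11, 4]]), (17,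
   25, [[20, 0, 26], [18, 21, 4, 13], [16, 9, 22], [12, 2], [11]]), (17, 26, [[20, 0], [18, 21,
   14, 22], [16, 9, 10], [12, 2], [11, 25]]), (18, 22, [[21, 14], [20, 0, 26], [19, 2, 10], [16,
   11, 25], [9]]), (18, 23, [[21, 7, 15], [20, 0, 26], [19, 2, 25], [16, 11, 13], [9, 14]]), (18,
   24, [[21, 4], [20, 0, 26, 23, 15], [19, 2, 13], [16, 11, 5, 3], [9, 14, 7]]), (18, 25, [[21,
   4, 13], [20, 0, 26], [19, 2], [16, 11], [9, 22]]), (18, 26, [[21, 14, 22], [20, 0], [19, 2],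
   [16, 11, 25], [9, 10]]), (19, 21, [[18], [17, 11], [12, 16], [2, 10, 14], [1, 9]]), (19, 22,
   [[20, 0, 26], [18, 21, 14], [12, 11, 25], [2, 10], [1, 9]]), (19, 23, [[18, 9, 14], [17, 16,
   21, 7, 15], [12, 11, 25], [2, 13], [1, 0, 26]]), (19, 24, [[20, 0, 26, 23, 15], [18, 21, 7],
   [12, 11, 4], [2, 13], [1, 9, 14, 6, 3]]), (19, 25, [[18, 9, 22], [17, 16, 21, 4, 13], [12,
   11], [2], [1, 0, 26]]), (19, 26, [[18, 9, 10], [17, 16, 21, 14, 22], [12, 11, 25], [2], [1,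
   0]]), (20, 21, [[18], [17, 11], [9], [1, 12, 16], [0, 10, 14]]), (20, 22, [[18, 21, 14], [17,
   11, 13, 23], [9], [1, 2, 25], [0, 10]]), (20, 23, [[18, 21, 7, 15], [17, 11, 25], [9, 14], [1,
   2, 13], [0, 26]]), (20, 24, [[18, 21, 5, 3], [17, 11, 4], [9, 14, 7], [1, 2, 13], [0, 26, 23,
   15]]), (20, 25, [[18, 21, 4, 13], [17, 11], [9, 22], [1, 2], [0, 26]]), (20, 26, [[18, 21, 14,
   22], [17, 11, 25], [9, 10], [1, 2], [0]]), (21, 22, [[16, 12, 2, 10], [14], [11, 25], [9], [4,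
   13, 23]]), (21, 23, [[14], [11, 25], [9, 22], [7, 15], [4, 13]]), (21, 24, [[11, 13], [7], [6,
   8], [5, 3], [4]]), (21, 25, [[16, 12, 2], [14, 23], [11], [9, 22], [4, 13]]), (21, 26, [[14,
   10], [11, 2], [9, 0], [7, 15, 23], [4, 13, 25]]), (22, 24, [[25, 13], [23, 15], [14, 7], [10,
   2, 11, 5, 3], [9, 21, 4]]), (23, 24, [[25, 11, 4], [22, 9, 21, 5, 3], [15], [14, 7], [13]]),
   (24, 25, [[15, 23], [13], [7, 14, 22], [4, 11], [3, 5, 21, 9, 0, 2]]), (24, 26, [[15, 23],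
   [13, 2], [7, 14, 10], [4, 11, 25], [3, 5, 21, 9, 0]])]


end Pool.Agent.R30.C4
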