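import Mathlib

set_option autoImplicit false

/-! Definitions: drawings of graphs in the plane, 1-plane graphs, maximality, connectivity. -/

namespace Pool.Agent.R30.C4

/-- The set `A` is a Jordan arc (simple arc) with ends `p` and `q`: the image of `[0,1]` under a
continuous injective parametrisation that starts at `p` and ends at `q`. -/
def IsArc (A : Set (ℝ × ℝ)) (p q : ℝ × ℝ) : Prop :=
  ∃ γ : ℝ → ℝ × ℝ, ContinuousOn γ (Set.Icc 0 1) ∧ Set.InjOn γ (Set.Icc 0 1) ∧
    γ 0 = p ∧ γ 1 = q ∧ γ '' Set.Icc 0 1 = A

/-- A drawing of the simple graph `G` in the plane `ℝ × ℝ`: the vertices are distinct points, each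
edge is a Jordan arc joining its two ends, and no arc passes through a vertex other than its
ends. -/
structure Drawing {V : Type} (G : SimpleGraph V) where
  /-- the point of a vertex -/
  pos : V → ℝ × ℝ
  /-- the arc of an edge (values at other pairs are irrelevant) -/
  arc : Sym2 V → Set (ℝ × ℝ)
  pos_injective : Function.Injective pos
  arc_isArc : ∀ u v, G.Adj u v → IsArc (arc s(u, v)) (pos u) (pos v)
  arc_avoids : ∀ u v w, G.Adj u v → pos w ∈ arc s(u, v) → w = u ∨ w = v

variable {V : Type} {G : SimpleGraph V}

/-- Two distinct edges cross when their arcs have a common point that is not a vertex. -/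
def Drawing.Crosses (D : Drawing G) (e f : Sym2 V) : Prop :=
  e ∈ G.edgeSet ∧ f ∈ G.edgeSet ∧ e ≠ f ∧ ∃ p, p ∈ D.arc e ∧ p ∈ D.arc f ∧ ∀ v, p ≠ D.pos v

/-- A 1-plane graph: each edge is crossed by at most one other edge. -/
def Drawing.IsOnePlane (D : Drawing G) : Prop :=
  ∀ e f f', D.Crosses e f → D.Crosses e f' → f = f'

/-- A maximal 1-plane graph: a 1-plane graph such that for any two distinct non-adjacent vertices
`u`, `v` no drawing of `G + uv` that extends the given drawing (same points, same arcs for the old
edges, an arbitrary arc for `uv`) is 1-plane. -/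
def Drawing.IsMaximalOnePlane (D : Drawing G) : Prop :=
  D.IsOnePlane ∧ ∀ u v, u ≠ v → ¬ G.Adj u v →
    ∀ D' : Drawing (G ⊔ SimpleGraph.edge u v), D'.pos = D.pos →
      (∀ e ∈ G.edgeSet, D'.arc e = D.arc e) → ¬ D'.IsOnePlane

/-- The crossing points of a drawing: the points that are not vertices and lie on two distinct
edges. -/
def Drawing.crossingPoints (D : Drawing G) : Set (ℝ × ℝ) :=
  {p | (∀ v, p ≠ D.pos v) ∧ ∃ e ∈ G.edgeSet, ∃ f ∈ G.edgeSet, e ≠ f ∧ p ∈ D.arc e ∧ p ∈ D.arc f}

/-- The vertex connectivity `κ(G)` of a finite graph: the largest `k` such that `G` has more than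
`k` vertices and stays connected after the deletion of any fewer than `k` vertices. -/
noncomputable def vertexConnectivity {n : ℕ} (G : SimpleGraph (Fin n)) : ℕ :=
  sSup {k | k < n ∧ ∀ S : Finset (Fin n), S.card < k → (G.induce {v | v ∉ S}).Connected}

end Pool.Agent.R30.C4
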