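import Pool.Agent.R30.C4.Main

set_option autoImplicit false

/-! Maximality, connectivity and the number of edges of the example. -/

namespace Pool.Agent.R30.C4

open Set Topology

attribute [local irreducible] cellsL outsL edgesL crossL sysL

/-! ### maximality -/

lemma blt_false (a b : ℕ) : (Nat.blt a b = false) = (b ≤ a) := by
  rw [← Bool.not_eq_true, Nat.blt_eq, not_lt]

lemma cell_corner {a b c : ℕ} (h : Cell a b c) (w : Fin 27)
    (hw : P w ∈ tri (P a) (P b) (P c)) : (w : ℕ) = a ∨ (w : ℕ) = b ∨ (w : ℕ) = c := by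
  obtain ⟨l1, l2, l3⟩ := cell_lt3 h
  have hw' : (w : ℕ) < 42 := by omega
  have := List.all_eq_true.mp (List.all_eq_true.mp k_corner _ h) w (List.mem_range.mpr w.2)
  simp only [Bool.or_eq_true, Nat.beq_eq] at this
  obtain ⟨h1, h2, h3⟩ := hw
  rcases this with ((((h0 | h0) | h0) | h0) | h0) | h0
  · exact Or.inl h0
  · exact Or.inr (Or.inl h0)
  · exact Or.inr (Or.inr h0)
  · have := posB_ori l2 l1 hw' h0
    rw [ori_swap] at this; linarith
  · have := posB_ori l3 l2 hw' h0
    rw [ori_swap] at this; linarith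
  · have := posB_ori l1 l3 hw' h0
    rw [ori_swap] at this; linarith

lemma outs_corner {a b c : ℕ} (h : Outs a b c) (w : Fin 27)
    (hw : P w ∈ otri (P a) (P b) (P c)) : (w : ℕ) = a ∨ (w : ℕ) = b ∨ (w : ℕ) = c := by
  obtain ⟨l1, l2, l3⟩ := outs_lt3 h
  have hw' : (w : ℕ) < 42 := by omega
  have := List.all_eq_true.mp (List.all_eq_true.mp k_ocorner _ h) w (List.mem_range.mpr w.2)
  simp only [Bool.or_eq_true, Nat.beq_eq, Bool.and_eq_true] at this
  rcases this with ((h0 | h0) | h0) | ⟨⟨h1, h2⟩, h3⟩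
  · exact Or.inl h0
  · exact Or.inr (Or.inl h0)
  · exact Or.inr (Or.inr h0)
  · exfalso
    have e1 := posB_ori (by omega) (by omega) hw' h1
    have e2 := posB_ori (by omega) (by omega) hw' h2
    have e3 := posB_ori (by omega) (by omega) hw' h3
    rcases hw with h4 | h4 | h4 <;> linarith

lemma cell_adj {a b c : ℕ} (h : Cell a b c) {u v : Fin 27} (hu : (u : ℕ) = a) (hv : (v : ℕ) = b) :
    G.Adj u v := by
  have := List.all_eq_true.mp k_adj _ h
  subst hu hv
  simp only [Bool.or_eq_true, Bool.not_eq_true', Bool.and_eq_false_iff, blt_false] at this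
  rcases this with (h0 | h0) | h0
  · have := u.2; omega
  · have := v.2; omega
  · exact h0

lemma outs_adj {a b c : ℕ} (h : Outs a b c) {u v : Fin 27} (hu : (u : ℕ) = a) (hv : (v : ℕ) = b) :
    G.Adj u v := by
  have := List.all_eq_true.mp k_oadj _ h
  subst hu hv
  simpa [G] using this

lemma tips {a b c d : ℕ} (h : Cell a b c) (h' : Cell b a d) (ha : a < 27) (hb : b < 27) :
    27 ≤ c ∨ 27 ≤ d := by
  have := List.all_eq_true.mp k_tips _ h
  simp only [Bool.or_eq_true, Bool.not_eq_true', Bool.and_eq_false_iff, blt_false] at this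
  rcases this with (h0 | h0) | h0
  · omega
  · omega
  · have := List.all_eq_true.mp h0 _ h'
    simp only [Bool.or_eq_true, Bool.not_eq_true', Nat.beq_refl, Bool.and_self,
      Nat.blt_eq, Bool.true_eq_false, false_or] at this
    omega

lemma otips {a b c d : ℕ} (h : Cell a b c) (h' : Outs a b d) : 27 ≤ c := by
  have := List.all_eq_true.mp (List.all_eq_true.mp k_otips _ h') _ h
  simp only [Bool.or_eq_true, Bool.not_eq_true', Nat.beq_refl, Bool.and_self,
    Nat.blt_eq, Bool.true_eq_false, false_or] at this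
  omega

lemma carrier {a b c : ℕ} (h : Cell a b c) : (a < 27 ∧ b < 27) ∨
    ∃ e, ∃ he : e ∈ edgesL, (∃ f, (e, f) ∈ crossP) ∧
      segment ℝ (P a) (P b) ⊆ segment ℝ (P e.1) (P e.2) := by
  have := List.all_eq_true.mp k_carrier _ h
  simp only [Bool.or_eq_true, Bool.and_eq_true, Nat.blt_eq, List.any_eq_true, Nat.beq_eq] at this
  rcases this with h0 | ⟨y, hy, h0⟩
  · exact Or.inl h0
  right
  obtain ⟨h1, h2, hx, -, s1, s2, -, -, -⟩ := cross_facts hy
  have hx' := crossP_symm hx
  have L1 : ∀ {q : ℕ}, q = y.1.1 ∨ q = y.1.2.1 → 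
      segment ℝ (P y.2.2) (P q) ⊆ segment ℝ (P y.1.1) (P y.1.2.1) := by
    intro q hq
    apply (convex_segment _ _).segment_subset s1
    rcases hq with rfl | rfl
    · exact left_mem_segment _ _ _
    · exact right_mem_segment _ _ _
  have L2 : ∀ {q : ℕ}, q = y.2.1.1 ∨ q = y.2.1.2.1 → 
      segment ℝ (P y.2.2) (P q) ⊆ segment ℝ (P y.2.1.1) (P y.2.1.2.1) := by
    intro q hq
    apply (convex_segment _ _).segment_subset s2
    rcases hq with rfl | rfl
    · exact left_mem_segment _ _ _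
    · exact right_mem_segment _ _ _
  rcases h0 with ⟨ha, h0⟩ | ⟨hb, h0⟩
  · rw [ha]
    rcases h0 with ((h0 | h0) | h0) | h0
    · exact ⟨_, h1, ⟨_, hx⟩, L1 (Or.inl h0)⟩
    · exact ⟨_, h1, ⟨_, hx⟩, L1 (Or.inr h0)⟩
    · exact ⟨_, h2, ⟨_, hx'⟩, L2 (Or.inl h0)⟩
    · exact ⟨_, h2, ⟨_, hx'⟩, L2 (Or.inr h0)⟩
  · rw [hb, segment_symm]
    rcases h0 with ((h0 | h0) | h0) | h0
    · exact ⟨_, h1, ⟨_, hx⟩, L1 (Or.inl h0)⟩
    · exact ⟨_, h1, ⟨_, hx⟩, L1 (Or.inr h0)⟩
    · exact ⟨_, h2, ⟨_, hx'⟩, L2 (Or.inl h0)⟩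
    · exact ⟨_, h2, ⟨_, hx'⟩, L2 (Or.inr h0)⟩

/-- the geometric heart of maximality -/
lemma no_arc {C : Set (ℝ × ℝ)} (hC : IsPreconnected C) (hne : C.Nonempty)
    (hv : ∀ p ∈ C, ∀ w : Fin 27, p ≠ P w) (x y : ℕ)
    (hr : (x < 27 ∧ y < 27) ∨ (42 ≤ x ∧ 42 ≤ y))
    (hav : ∀ e ∈ edgesL, e ≠ (x, y) → ∀ p ∈ C, p ∉ segment ℝ (P e.1) (P e.2))
    (hxy : (∃ f, ((x, y), f) ∈ crossP) → ∀ p ∈ C, p ∉ segment ℝ (P x) (P y))
    (u v : Fin 27) (huv : u ≠ v) (hu : P u ∈ closure C) (hv' : P v ∈ closure C) : G.Adj u v := by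
  have havc : ∀ e ∈ edgesL, (∃ f, (e, f) ∈ crossP) → ∀ p ∈ C, p ∉ segment ℝ (P e.1) (P e.2) := by
    intro e he hf
    by_cases h : e = (x, y)
    · subst h; exact hxy hf
    · exact hav e he h
  have hpts : ∀ p ∈ C, p ∉ X.pts := by
    rintro p hp ⟨i, hi, rfl⟩
    by_cases h27 : i < 27
    · exact hv _ hp ⟨i, h27⟩ rfl
    · have := k_crossIdx i hi (by omega)
      simp only [List.any_eq_true, Nat.beq_eq] at this
      obtain ⟨z, hz, rfl⟩ := this
      obtain ⟨h1, h2, hx, -, s1, s2, -, -, -⟩ := cross_facts hz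
      exact havc _ h1 ⟨_, hx⟩ _ hp s1
  have hside : ∀ a b c, X.cell a b c → ¬ ((a = x ∧ b = y) ∨ (a = y ∧ b = x)) →
      ∀ p ∈ C, p ∉ segment ℝ (X.P a) (X.P b) := by
    intro a b c h hn p hp hs
    rcases carrier h with ⟨ha, hb⟩ | ⟨e, he, hf, hsub⟩
    · have hadj := cell_adj h (u := ⟨a, ha⟩) (v := ⟨b, hb⟩) rfl rfl
      rcases exists_edge hadj with h1 | h1
      · exact hav _ h1 (fun e => hn (Or.inl (Prod.mk.injEq _ _ _ _ ▸ e))) p hp hs
      · refine hav _ h1 (fun e => hn (Or.inr ?_)) p hp (by rw [segment_symm]; exact hs)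
        have := Prod.mk.injEq _ _ _ _ ▸ e
        exact ⟨this.2, this.1⟩
    · exact havc e he hf p hp (hsub hs)
  have cl : ∀ {R : Set (ℝ × ℝ)}, IsClosed R → C ⊆ R → P u ∈ R ∧ P v ∈ R := fun hR hs =>
    ⟨closure_minimal hs hR hu, closure_minimal hs hR hv'⟩
  rcases X.trapped hC hne hpts x y hside with ⟨a, b, c, h, hs⟩ | ⟨a, b, c, h, hs⟩ |
    ⟨a, b, c, d, h, h', hf, hs⟩ | ⟨a, b, c, d, h, h', hf, hs⟩
  · obtain ⟨pu, pv⟩ := cl (isClosed_tri _ _ _) hs
    have r1 := cell_rot _ _ _ h
    have r2 := cell_rot _ _ _ r1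
    rcases cell_corner h u pu with hu | hu | hu <;> rcases cell_corner h v pv with hv | hv | hv
    · exact absurd (Fin.ext (hu.trans hv.symm)) huv
    · exact cell_adj h hu hv
    · exact (cell_adj r2 hv hu).symm
    · exact (cell_adj h hv hu).symm
    · exact absurd (Fin.ext (hu.trans hv.symm)) huv
    · exact cell_adj r1 hu hv
    · exact cell_adj r2 hu hv
    · exact (cell_adj r1 hv hu).symm
    · exact absurd (Fin.ext (hu.trans hv.symm)) huv
  · obtain ⟨pu, pv⟩ := cl (isClosed_otri _ _ _) hs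
    have r1 := outs_rot _ _ _ h
    have r2 := outs_rot _ _ _ r1
    rcases outs_corner h u pu with hu | hu | hu <;> rcases outs_corner h v pv with hv | hv | hv
    · exact absurd (Fin.ext (hu.trans hv.symm)) huv
    · exact outs_adj h hu hv
    · exact (outs_adj r2 hv hu).symm
    · exact (outs_adj h hv hu).symm
    · exact absurd (Fin.ext (hu.trans hv.symm)) huv
    · exact outs_adj r1 hu hv
    · exact outs_adj r2 hu hv
    · exact (outs_adj r1 hv hu).symm
    · exact absurd (Fin.ext (hu.trans hv.symm)) huv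
  · obtain ⟨pu, pv⟩ := cl ((isClosed_tri _ _ _).union (isClosed_tri _ _ _)) hs
    have r1 := cell_rot _ _ _ h
    have r2 := cell_rot _ _ _ r1
    have t1 := cell_rot _ _ _ h'
    have t2 := cell_rot _ _ _ t1
    -- the common side
    by_cases hreal : a < 27 ∧ b < 27
    · have htips := tips h h' hreal.1 hreal.2
      have cu : (u : ℕ) = a ∨ (u : ℕ) = b ∨ (u : ℕ) = c ∨ (u : ℕ) = d := by
        rcases pu with pu | pu
        · have := cell_corner h u pu; omega
        · have := cell_corner h' u pu; omega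
      have cv : (v : ℕ) = a ∨ (v : ℕ) = b ∨ (v : ℕ) = c ∨ (v : ℕ) = d := by
        rcases pv with pv | pv
        · have := cell_corner h v pv; omega
        · have := cell_corner h' v pv; omega
      rcases cu with hu | hu | hu | hu <;> rcases cv with hv | hv | hv | hv
      · exact absurd (Fin.ext (hu.trans hv.symm)) huv
      · exact cell_adj h hu hv
      · exact (cell_adj r2 hv hu).symm
      · exact cell_adj t1 hu hv
      · exact (cell_adj h hv hu).symm
      · exact absurd (Fin.ext (hu.trans hv.symm)) huv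
      · exact cell_adj r1 hu hv
      · exact (cell_adj t2 hv hu).symm
      · exact cell_adj r2 hu hv
      · exact (cell_adj r1 hv hu).symm
      · exact absurd (Fin.ext (hu.trans hv.symm)) huv
      · exfalso; omega
      · exact (cell_adj t1 hv hu).symm
      · exact cell_adj t2 hu hv
      · exfalso; omega
      · exact absurd (Fin.ext (hu.trans hv.symm)) huv
    · exfalso
      obtain ⟨l1, l2, -⟩ := cell_lt3 h
      omega
  · obtain ⟨pu, pv⟩ := cl ((isClosed_tri _ _ _).union (isClosed_otri _ _ _)) hs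
    have r1 := cell_rot _ _ _ h
    have r2 := cell_rot _ _ _ r1
    have t1 := outs_rot _ _ _ h'
    have t2 := outs_rot _ _ _ t1
    have htips := otips h h'
    have cu : (u : ℕ) = a ∨ (u : ℕ) = b ∨ (u : ℕ) = d := by
      rcases pu with pu | pu
      · have := cell_corner h u pu; omega
      · exact outs_corner h' u pu
    have cv : (v : ℕ) = a ∨ (v : ℕ) = b ∨ (v : ℕ) = d := by
      rcases pv with pv | pv
      · have := cell_corner h v pv; omega
      · exact outs_corner h' v pv
    rcases cu with hu | hu | hu <;> rcases cv with hv | hv | hv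
    · exact absurd (Fin.ext (hu.trans hv.symm)) huv
    · exact outs_adj h' hu hv
    · exact (outs_adj t2 hv hu).symm
    · exact (outs_adj h' hv hu).symm
    · exact absurd (Fin.ext (hu.trans hv.symm)) huv
    · exact outs_adj t1 hu hv
    · exact outs_adj t2 hu hv
    · exact (outs_adj t1 hv hu).symm
    · exact absurd (Fin.ext (hu.trans hv.symm)) huv

theorem D_maximal : D.IsMaximalOnePlane := by
  refine ⟨D_onePlane, ?_⟩
  intro u v huv hnadj D' hpos harc hone
  have hposw : ∀ w, D'.pos w = P w := fun w => by rw [hpos]; rfl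
  have hle : G ≤ G ⊔ SimpleGraph.edge u v := le_sup_left
  have hadj : (G ⊔ SimpleGraph.edge u v).Adj u v := by
    right
    rw [SimpleGraph.edge_adj]
    exact ⟨Or.inl ⟨rfl, rfl⟩, huv⟩
  have hgmem : s(u, v) ∈ (G ⊔ SimpleGraph.edge u v).edgeSet := hadj
  obtain ⟨γ, hcont, hinj, h0, h1, himg⟩ := D'.arc_isArc u v hadj
  have hCsub : ∀ p ∈ γ '' Ioo 0 1, p ∈ D'.arc s(u, v) := by
    rintro p ⟨t, ht, rfl⟩
    rw [← himg]
    exact ⟨t, Ioo_subset_Icc_self ht, rfl⟩
  have hv : ∀ p ∈ γ '' Ioo 0 1, ∀ w : Fin 27, p ≠ P w := by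
    rintro p ⟨t, ht, rfl⟩ w hw
    have hm : D'.pos w ∈ D'.arc s(u, v) := by
      rw [hposw, ← hw]; exact hCsub _ ⟨t, ht, rfl⟩
    have ht' := Ioo_subset_Icc_self ht
    rcases D'.arc_avoids u v w hadj hm with rfl | rfl
    · rw [← hposw, ← h0] at hw
      exact ht.1.ne' (hinj ht' (left_mem_Icc.mpr zero_le_one) hw)
    · rw [← hposw, ← h1] at hw
      exact ht.2.ne (hinj ht' (right_mem_Icc.mpr zero_le_one) hw)
  have hne_g : ∀ e ∈ G.edgeSet, s(u, v) ≠ e := by
    rintro e he rfl
    exact hnadj he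
  have hcr : ∀ e ∈ G.edgeSet, ∀ p ∈ γ '' Ioo 0 1, p ∈ D.arc e → D'.Crosses s(u, v) e := by
    intro e he p hp hpe
    refine ⟨hgmem, SimpleGraph.edgeSet_mono hle he, hne_g e he, p, hCsub p hp, ?_, ?_⟩
    · rw [harc e he]; exact hpe
    · intro w; rw [hposw]; exact hv p hp w
  have hcr' : ∀ e ∈ G.edgeSet, ∀ f ∈ G.edgeSet, D'.Crosses s(u, v) e → ¬ D.Crosses e f := by
    intro e he f hf h1 ⟨_, _, h4, p, h5, h6, h7⟩
    have hc : D'.Crosses e f := by
      refine ⟨SimpleGraph.edgeSet_mono hle he, SimpleGraph.edgeSet_mono hle hf, h4, p, ?_, ?_, ?_⟩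
      · rw [harc e he]; exact h5
      · rw [harc f hf]; exact h6
      · intro w; rw [hposw]; exact h7 w
    have hc' : D'.Crosses e s(u, v) := by
      obtain ⟨a1, a2, a3, q, a4, a5, a6⟩ := h1
      exact ⟨a2, a1, a3.symm, q, a5, a4, a6⟩
    exact hne_g f hf (hone _ _ _ hc hc').symm
  -- the topological facts
  have hC : IsPreconnected (γ '' Ioo 0 1) :=
    isPreconnected_Ioo.image _ (hcont.mono Ioo_subset_Icc_self)
  have hCne : (γ '' Ioo (0 : ℝ) 1).Nonempty := ⟨γ (1 / 2), 1 / 2, by norm_num, rfl⟩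
  have hcl : γ '' Icc 0 1 ⊆ closure (γ '' Ioo 0 1) := by
    have h : closure (Ioo (0 : ℝ) 1) = Icc 0 1 := closure_Ioo (by norm_num)
    have := ContinuousOn.image_closure (s := Ioo (0 : ℝ) 1) (f := γ) (by rw [h]; exact hcont)
    rwa [h] at this
  have hu' : P u ∈ closure (γ '' Ioo 0 1) := by
    rw [← hposw, ← h0]; exact hcl ⟨0, left_mem_Icc.mpr zero_le_one, rfl⟩
  have hv'' : P v ∈ closure (γ '' Ioo 0 1) := by
    rw [← hposw, ← h1]; exact hcl ⟨1, right_mem_Icc.mpr zero_le_one, rfl⟩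
  apply hnadj
  by_cases hex : ∃ c, ∃ hc : c ∈ edgesL, ∃ p ∈ γ '' Ioo 0 1, p ∈ segment ℝ (P c.1) (P c.2)
  · obtain ⟨c, hc, p, hp, hpc⟩ := hex
    have hX := hcr _ (toE_mem hc) p hp (by rw [D_arc]; exact hpc)
    have l := edges_lt hc
    refine no_arc hC hCne hv c.1 c.2 (Or.inl ⟨by omega, l.2⟩) ?_ ?_ u v huv hu' hv''
    · intro e he hne q hq hqe
      have hX' := hcr _ (toE_mem he) q hq (by rw [D_arc]; exact hqe)
      exact hne (toE_inj he hc (hone _ _ _ hX' hX))
    · rintro ⟨f, hf⟩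
      exfalso
      obtain ⟨h1, h2⟩ := mem_cross_edges hf
      simp only [crossP, List.mem_append, List.mem_map, Prod.mk.injEq] at hf
      rcases hf with ⟨x, hx, e1, e2⟩ | ⟨x, hx, e1, e2⟩
      · obtain ⟨g1, g2, -, hne, s1, s2, l1, l2, -⟩ := cross_facts hx
        have hce : toE c hc = toE _ g1 := by
          congr 1; exact Prod.ext e1.1.symm e1.2.symm
        apply hcr' _ (toE_mem hc) _ (toE_mem g2) hX
        rw [hce]
        exact ⟨toE_mem g1, toE_mem g2, hne, P x.2.2, by rw [D_arc]; exact s1,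
          by rw [D_arc]; exact s2, real_of_lt l1 l2⟩
      · obtain ⟨g1, g2, -, hne, s1, s2, l1, l2, -⟩ := cross_facts hx
        have hce : toE c hc = toE _ g2 := by
          congr 1; exact Prod.ext e1.1.symm e1.2.symm
        apply hcr' _ (toE_mem hc) _ (toE_mem g1) hX
        rw [hce]
        exact ⟨toE_mem g2, toE_mem g1, hne.symm, P x.2.2, by rw [D_arc]; exact s2,
          by rw [D_arc]; exact s1, real_of_lt l1 l2⟩
  · refine no_arc hC hCne hv 42 42 (Or.inr ⟨le_rfl, le_rfl⟩) ?_ ?_ u v huv hu' hv''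
    · intro e he _ q hq hqe
      exact hex ⟨e, he, q, hq, hqe⟩
    · rintro ⟨f, hf⟩
      exfalso
      have := (edges_lt (mem_cross_edges hf).1).2
      simp at this

/-! ### connectivity -/

lemma path_reach {S : Finset (Fin 27)} : ∀ (l : List ℕ) (s t : Fin 27) (hs : s ∉ S) (ht : t ∉ S),
    pathB s t l = true → (∀ w : Fin 27, (w : ℕ) ∈ l → w ∉ S) →
    (G.induce {v | v ∉ S}).Reachable ⟨s, hs⟩ ⟨t, ht⟩
  | [], s, t, hs, ht, h, _ => by
      refine SimpleGraph.Adj.reachable ?_
      simp only [SimpleGraph.comap_adj, Function.Embedding.subtype_apply]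
      exact h
  | x :: l, s, t, hs, ht, h, hl => by
      simp only [pathB, Bool.and_eq_true, Nat.blt_eq] at h
      obtain ⟨⟨hx, ha⟩, hp⟩ := h
      have hxS : (⟨x, hx⟩ : Fin 27) ∉ S := hl ⟨x, hx⟩ (by simp)
      have h1 : (G.induce {v | v ∉ S}).Reachable ⟨s, hs⟩ ⟨⟨x, hx⟩, hxS⟩ := by
        refine SimpleGraph.Adj.reachable ?_
        simp only [SimpleGraph.comap_adj, Function.Embedding.subtype_apply]
        exact ha
      exact h1.trans (path_reach l ⟨x, hx⟩ t hxS ht hp fun w hw => hl w (by simp [hw]))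

lemma pathB_lt : ∀ (l : List ℕ) (s t : ℕ), pathB s t l = true → ∀ x ∈ l, x < 27
  | [], _, _, _, x, hx => by simp at hx
  | y :: l, s, t, h, x, hx => by
      simp only [pathB, Bool.and_eq_true, Nat.blt_eq] at h
      rcases List.mem_cons.mp hx with rfl | hx
      · exact h.1.1
      · exact pathB_lt l y t h.2 x hx

/-- pigeonhole: among `k` pairwise disjoint lists one avoids a set with fewer than `k` elements -/
lemma exists_free (S : Finset ℕ) : ∀ (L : List (List ℕ)) (T : Finset ℕ), T ⊆ S →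
    L.flatten.Nodup → (∀ x ∈ L.flatten, x ∉ T) → S.card < T.card + L.length →
    ∃ l ∈ L, ∀ x ∈ l, x ∉ S
  | [], T, hT, _, _, hc => by
      have := Finset.card_le_card hT
      simp at hc; omega
  | l :: L, T, hT, hn, hd, hc => by
      by_cases h : ∀ x ∈ l, x ∉ S
      · exact ⟨l, by simp, h⟩
      · push Not at h
        obtain ⟨x, hx, hxS⟩ := h
        have hxT : x ∉ T := hd x (by simp [hx])
        have hn' : (l ++ L.flatten).Nodup := by simpa using hn
        have hdis := List.disjoint_of_nodup_append hn'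
        obtain ⟨l', hl', hf⟩ := exists_free S L (insert x T)
          (Finset.insert_subset hxS hT) hn'.of_append_right
          (by
            intro y hy
            rw [Finset.mem_insert, not_or]
            refine ⟨?_, hd y (by rw [List.flatten_cons]; exact List.mem_append_right _ hy)⟩
            rintro rfl
            exact hdis hx hy)
          (by rw [Finset.card_insert_of_notMem hxT]; simp at hc; omega)
        exact ⟨l', by simp [hl'], hf⟩

lemma reach_lt {S : Finset (Fin 27)} (hS : S.card < 5) {s t : Fin 27} (hst : (s : ℕ) < t)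
    (hs : s ∉ S) (ht : t ∉ S) : (G.induce {v | v ∉ S}).Reachable ⟨s, hs⟩ ⟨t, ht⟩ := by
  rcases k_sysAll t t.2 s hst with h | h
  · refine SimpleGraph.Adj.reachable ?_
    simp only [SimpleGraph.comap_adj, Function.Embedding.subtype_apply]
    exact h
  · simp only [List.any_eq_true, Bool.and_eq_true, Nat.beq_eq] at h
    obtain ⟨x, hx, e1, e2⟩ := h
    have := List.all_eq_true.mp k_sys _ hx
    simp only [Bool.and_eq_true, decide_eq_true_eq, Nat.beq_eq] at this
    obtain ⟨⟨⟨p1, p2⟩, p3⟩, p4⟩ := this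
    obtain ⟨l, hl, hf⟩ := exists_free (S.map Fin.valEmbedding) x.2.2 ∅ (by simp) p3 (by simp)
      (by simp; omega)
    have hp := List.all_eq_true.mp p1 l hl
    simp only [e1, e2] at hp
    refine path_reach l s t hs ht hp ?_
    intro w hw hwS
    exact hf w hw (Finset.mem_map_of_mem _ hwS)

lemma connected_of_lt {S : Finset (Fin 27)} (hS : S.card < 5) :
    (G.induce {v | v ∉ S}).Connected := by
  rw [SimpleGraph.connected_iff]
  constructor
  · rintro ⟨s, hs⟩ ⟨t, ht⟩
    rcases lt_trichotomy (s : ℕ) t with h | h | h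
    · exact reach_lt hS h hs ht
    · have : s = t := Fin.ext h
      subst this
      exact SimpleGraph.Reachable.refl _
    · exact (reach_lt hS h ht hs).symm
  · have : ∃ w : Fin 27, w ∉ S := by
      by_contra hcon
      push Not at hcon
      have : S = Finset.univ := Finset.eq_univ_iff_forall.mpr hcon
      rw [this] at hS
      simp at hS
    obtain ⟨w, hw⟩ := this
    exact ⟨⟨w, hw⟩⟩

/-- one side of the separation -/
def sideA : List ℕ := [1, 12, 19, 20, 17, 18, 16]
/-- the separator -/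
def sepS : List ℕ := [0, 2, 9, 11, 21]

lemma k_separates : ∀ a < 27, ∀ b < 27, sideA.contains a = true → adjB a b = true →
    (sideA.contains b || sepS.contains b) = true := by decide +kernel

lemma not_connected : ∃ S : Finset (Fin 27), S.card = 5 ∧
    ¬ (G.induce {v | v ∉ S}).Connected := by
  refine ⟨{0, 2, 9, 11, 21}, by decide, ?_⟩
  intro h
  have h1 : (1 : Fin 27) ∉ ({0, 2, 9, 11, 21} : Finset (Fin 27)) := by decide
  have h3 : (3 : Fin 27) ∉ ({0, 2, 9, 11, 21} : Finset (Fin 27)) := by decide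
  have hr := h.preconnected ⟨1, h1⟩ ⟨3, h3⟩
  have key : ∀ x y, (G.induce {v | v ∉ ({0, 2, 9, 11, 21} : Finset (Fin 27))}).Reachable x y →
      sideA.contains (x.1 : ℕ) = true → sideA.contains (y.1 : ℕ) = true := by
    intro x y hxy
    obtain ⟨p⟩ := hxy
    induction p with
    | nil => exact id
    | @cons a b c hab _ ih =>
      intro ha
      apply ih
      have hab' : adjB (a.1 : ℕ) (b.1 : ℕ) = true := hab
      have := k_separates _ a.1.2 _ b.1.2 ha hab'
      rw [Bool.or_eq_true] at this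
      rcases this with h | h
      · exact h
      · exfalso
        apply b.2
        revert h
        generalize b.1 = w
        revert w
        decide
  have := key _ _ hr (show sideA.contains 1 = true by decide)
  exact absurd (show sideA.contains 3 = true from this) (by decide)

theorem G_kappa : vertexConnectivity G = 5 := by
  unfold vertexConnectivity
  apply IsGreatest.csSup_eq
  constructor
  · exact ⟨by norm_num, fun S hS => connected_of_lt hS⟩
  · rintro k ⟨_, hk⟩
    by_contra hlt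
    obtain ⟨S, hS, hnc⟩ := not_connected
    exact hnc (hk S (by omega))

theorem G_edges : G.edgeSet.ncard = 90 := by
  have h1 : ∀ e ∈ edgesL, e.1 < 27 ∧ e.2 < 27 := fun e he =>
    ⟨(edges_lt he).1.trans (edges_lt he).2, (edges_lt he).2⟩
  have h2 : G.edgeSet = (fun e : ℕ × ℕ => s((Fin.ofNat 27 e.1), (Fin.ofNat 27 e.2))) ''
      (edgesL.toFinset : Set (ℕ × ℕ)) := by
    ext e
    constructor
    · intro he
      obtain ⟨c, hc, rfl⟩ := exists_toE he
      refine ⟨c, by simpa using hc, ?_⟩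
      simp only [toE]
      congr 1 <;> apply Fin.ext <;> simp [Fin.ofNat, Nat.mod_eq_of_lt (h1 c hc).1,
        Nat.mod_eq_of_lt (h1 c hc).2]
    · rintro ⟨c, hc, rfl⟩
      have hc' : c ∈ edgesL := by simpa using hc
      have := toE_mem hc'
      convert this using 1
      simp only [toE]
      congr 1 <;> apply Fin.ext <;> simp [Fin.ofNat, Nat.mod_eq_of_lt (h1 c hc').1,
        Nat.mod_eq_of_lt (h1 c hc').2]
  rw [h2, Set.InjOn.ncard_image, Set.ncard_coe_finset, List.toFinset_card_of_nodup k_nodup, k_len]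
  intro e he f hf hef
  have he' : e ∈ edgesL := by simpa using he
  have hf' : f ∈ edgesL := by simpa using hf
  have le := edges_lt he'
  have lf := edges_lt hf'
  have he1 := h1 e he'
  have hf1 := h1 f hf'
  simp only [Sym2.eq_iff, Fin.ext_iff, Fin.ofNat, Nat.mod_eq_of_lt he1.1, Nat.mod_eq_of_lt he1.2,
    Nat.mod_eq_of_lt hf1.1, Nat.mod_eq_of_lt hf1.2] at hef
  apply Prod.ext <;> omega

end Pool.Agent.R30.C4
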