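import Mathlib

set_option autoImplicit false

/-! Geometry of straight-line triangulated pictures. -/

namespace Pool.Agent.R30.C4

open Set Topology

/-- orientation determinant -/
def ori (a b p : ℝ × ℝ) : ℝ := (b.1 - a.1) * (p.2 - a.2) - (b.2 - a.2) * (p.1 - a.1)

/-- closed triangle (meant counterclockwise) -/
def tri (a b c : ℝ × ℝ) : Set (ℝ × ℝ) := {p | 0 ≤ ori a b p ∧ 0 ≤ ori b c p ∧ 0 ≤ ori c a p}

/-- complement of the open triangle -/
def otri (a b c : ℝ × ℝ) : Set (ℝ × ℝ) := {p | ori a b p ≤ 0 ∨ ori b c p ≤ 0 ∨ ori c a p ≤ 0}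

lemma ori_cont (a b : ℝ × ℝ) : Continuous (ori a b) := by
  unfold ori; fun_prop

lemma ori_rot (a b c : ℝ × ℝ) : ori b c a = ori a b c := by simp only [ori]; ring
lemma ori_swap (a b c : ℝ × ℝ) : ori b a c = -ori a b c := by simp only [ori]; ring
lemma ori_self₁ (a b : ℝ × ℝ) : ori a b a = 0 := by simp only [ori]; ring
lemma ori_self₂ (a b : ℝ × ℝ) : ori a b b = 0 := by simp only [ori]; ring
lemma ori_sum (a b c p : ℝ × ℝ) : ori a b p + ori b c p + ori c a p = ori a b c := by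
  simp only [ori]; ring

lemma tri_rot (a b c : ℝ × ℝ) : tri b c a = tri a b c := by
  ext p; simp only [tri, mem_ofPred_eq]; tauto
lemma otri_rot (a b c : ℝ × ℝ) : otri b c a = otri a b c := by
  ext p; simp only [otri, mem_ofPred_eq]; tauto

lemma isClosed_tri (a b c : ℝ × ℝ) : IsClosed (tri a b c) := by
  have : tri a b c = {p | 0 ≤ ori a b p} ∩ ({p | 0 ≤ ori b c p} ∩ {p | 0 ≤ ori c a p}) := by
    ext p; simp [tri]
  rw [this]
  exact (isClosed_le continuous_const (ori_cont _ _)).inter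
    ((isClosed_le continuous_const (ori_cont _ _)).inter
      (isClosed_le continuous_const (ori_cont _ _)))

lemma isClosed_otri (a b c : ℝ × ℝ) : IsClosed (otri a b c) := by
  have : otri a b c = {p | ori a b p ≤ 0} ∪ ({p | ori b c p ≤ 0} ∪ {p | ori c a p ≤ 0}) := by
    ext p; simp [otri]
  rw [this]
  exact (isClosed_le (ori_cont _ _) continuous_const).union
    ((isClosed_le (ori_cont _ _) continuous_const).union
      (isClosed_le (ori_cont _ _) continuous_const))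

/-- a point of the closed triangle on the line of a side is on the side -/
lemma mem_seg {a b c p : ℝ × ℝ} (h : 0 < ori a b c) (hp : p ∈ tri a b c) (h0 : ori a b p = 0) :
    p ∈ segment ℝ a b := by
  obtain ⟨-, h2, h3⟩ := hp
  have hs := ori_sum a b c p
  rw [h0, zero_add] at hs
  refine ⟨ori b c p / ori a b c, ori c a p / ori a b c, by positivity, by positivity, ?_, ?_⟩
  · rw [← add_div, hs, div_self h.ne']
  · have e1 : ori b c p * a.1 + ori c a p * b.1 = ori a b c * p.1 := by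
      have : ori b c p * a.1 + ori c a p * b.1 + ori a b p * c.1 = ori a b c * p.1 := by
        simp only [ori]; ring
      rw [h0] at this; linarith
    have e2 : ori b c p * a.2 + ori c a p * b.2 = ori a b c * p.2 := by
      have : ori b c p * a.2 + ori c a p * b.2 + ori a b p * c.2 = ori a b c * p.2 := by
        simp only [ori]; ring
      rw [h0] at this; linarith
    apply Prod.ext
    · simp only [Prod.fst_add, Prod.smul_fst, smul_eq_mul]
      rw [div_mul_eq_mul_div, div_mul_eq_mul_div, ← add_div, e1, mul_div_cancel_left₀ _ h.ne']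
    · simp only [Prod.snd_add, Prod.smul_snd, smul_eq_mul]
      rw [div_mul_eq_mul_div, div_mul_eq_mul_div, ← add_div, e2, mul_div_cancel_left₀ _ h.ne']

lemma seg_params {a b p : ℝ × ℝ} (hp : p ∈ segment ℝ a b) (ha : p ≠ a) (hb : p ≠ b) :
    ∃ s t : ℝ, 0 < s ∧ 0 < t ∧ s + t = 1 ∧ p = (s * a.1 + t * b.1, s * a.2 + t * b.2) := by
  obtain ⟨s, t, hs, ht, hst, rfl⟩ := hp
  refine ⟨s, t, ?_, ?_, hst, ?_⟩
  · rcases hs.eq_or_lt with h | h
    · exfalso; apply hb
      rw [← h] at hst ⊢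
      rw [zero_add] at hst
      rw [hst]; simp
    · exact h
  · rcases ht.eq_or_lt with h | h
    · exfalso; apply ha
      rw [← h] at hst ⊢
      rw [add_zero] at hst
      rw [hst]; simp
    · exact h
  · apply Prod.ext <;> simp

lemma seg_ori {a b p : ℝ × ℝ} (hp : p ∈ segment ℝ a b) : ori a b p = 0 := by
  obtain ⟨s, t, hs, ht, hst, rfl⟩ := hp
  have : s = 1 - t := by linarith
  subst this
  simp only [ori, Prod.fst_add, Prod.smul_fst, smul_eq_mul, Prod.snd_add, Prod.smul_snd]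
  ring

lemma seg_ori_pos {a b c p : ℝ × ℝ} (h : 0 < ori a b c) (hp : p ∈ segment ℝ a b) (ha : p ≠ a)
    (hb : p ≠ b) : 0 < ori b c p ∧ 0 < ori c a p := by
  obtain ⟨s, t, hs, ht, hst, rfl⟩ := seg_params hp ha hb
  have hs' : s = 1 - t := by linarith
  have e1 : ori b c (s * a.1 + t * b.1, s * a.2 + t * b.2) = s * ori a b c := by
    subst hs'; simp only [ori]; ring
  have e2 : ori c a (s * a.1 + t * b.1, s * a.2 + t * b.2) = t * ori a b c := by
    subst hs'; simp only [ori]; ring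
  rw [e1, e2]
  exact ⟨by positivity, by positivity⟩

/-- neighbourhood of a relatively interior point of a common side -/
lemma nhds_tt {a b c d p : ℝ × ℝ} (h1 : 0 < ori a b c) (h2 : 0 < ori b a d)
    (hp : p ∈ segment ℝ a b) (ha : p ≠ a) (hb : p ≠ b) : tri a b c ∪ tri b a d ∈ 𝓝 p := by
  obtain ⟨k1, k2⟩ := seg_ori_pos h1 hp ha hb
  obtain ⟨k3, k4⟩ := seg_ori_pos h2 (by rw [segment_symm]; exact hp) hb ha
  have e1 : ∀ᶠ q in 𝓝 p, 0 < ori b c q := (ori_cont b c).continuousAt.eventually (lt_mem_nhds k1)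
  have e2 : ∀ᶠ q in 𝓝 p, 0 < ori c a q := (ori_cont c a).continuousAt.eventually (lt_mem_nhds k2)
  have e3 : ∀ᶠ q in 𝓝 p, 0 < ori a d q := (ori_cont a d).continuousAt.eventually (lt_mem_nhds k3)
  have e4 : ∀ᶠ q in 𝓝 p, 0 < ori d b q := (ori_cont d b).continuousAt.eventually (lt_mem_nhds k4)
  filter_upwards [e1, e2, e3, e4] with q q1 q2 q3 q4
  rcases le_total 0 (ori a b q) with h | h
  · exact Or.inl ⟨h, q1.le, q2.le⟩
  · refine Or.inr ⟨?_, q3.le, q4.le⟩
    rw [ori_swap]; linarith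

lemma nhds_to {a b c d p : ℝ × ℝ} (h1 : 0 < ori a b c) 
    (hp : p ∈ segment ℝ a b) (ha : p ≠ a) (hb : p ≠ b) : tri a b c ∪ otri a b d ∈ 𝓝 p := by
  obtain ⟨k1, k2⟩ := seg_ori_pos h1 hp ha hb
  have e1 : ∀ᶠ q in 𝓝 p, 0 < ori b c q := (ori_cont b c).continuousAt.eventually (lt_mem_nhds k1)
  have e2 : ∀ᶠ q in 𝓝 p, 0 < ori c a q := (ori_cont c a).continuousAt.eventually (lt_mem_nhds k2)
  filter_upwards [e1, e2] with q q1 q2
  rcases le_total 0 (ori a b q) with h | h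
  · exact Or.inl ⟨h, q1.le, q2.le⟩
  · exact Or.inr (Or.inl h)

lemma nhds_t {a b c p : ℝ × ℝ} (h1 : 0 < ori a b p) (h2 : 0 < ori b c p) (h3 : 0 < ori c a p) :
    tri a b c ∈ 𝓝 p := by
  have e1 : ∀ᶠ q in 𝓝 p, 0 < ori a b q := (ori_cont a b).continuousAt.eventually (lt_mem_nhds h1)
  have e2 : ∀ᶠ q in 𝓝 p, 0 < ori b c q := (ori_cont b c).continuousAt.eventually (lt_mem_nhds h2)
  have e3 : ∀ᶠ q in 𝓝 p, 0 < ori c a q := (ori_cont c a).continuousAt.eventually (lt_mem_nhds h3)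
  filter_upwards [e1, e2, e3] with q q1 q2 q3
  exact ⟨q1.le, q2.le, q3.le⟩

lemma nhds_o {a b c p : ℝ × ℝ} (h1 : ori a b p < 0) : otri a b c ∈ 𝓝 p := by
  have e1 : ∀ᶠ q in 𝓝 p, ori a b q < 0 := (ori_cont a b).continuousAt.eventually (gt_mem_nhds h1)
  filter_upwards [e1] with q q1
  exact Or.inl q1.le

/-- A triangulated picture of the plane with finitely many points. -/
structure Pic where
  /-- the points -/
  P : ℕ → ℝ × ℝ
  /-- number of points -/
  N : ℕ
  /-- oriented cells -/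
  cell : ℕ → ℕ → ℕ → Prop
  /-- the outer triangle -/
  outs : ℕ → ℕ → ℕ → Prop
  cell_rot : ∀ a b c, cell a b c → cell b c a
  outs_rot : ∀ a b c, outs a b c → outs b c a
  cell_lt : ∀ a b c, cell a b c → a < N
  outs_lt : ∀ a b c, outs a b c → a < N
  cell_pos : ∀ a b c, cell a b c → 0 < ori (P a) (P b) (P c)
  outs_pos : ∀ a b c, outs a b c → 0 < ori (P a) (P b) (P c)
  mate : ∀ a b c, cell a b c → (∃ d, cell b a d) ∨ ∃ d, outs a b d
  omate : ∀ a b c, outs a b c → ∃ d, cell a b d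
  some_outs : ∃ a b c, outs a b c

namespace Pic

variable (X : Pic)

/-- the finite set of points -/
def pts : Set (ℝ × ℝ) := X.P '' Set.Iio X.N

lemma pts_finite : X.pts.Finite := (Set.finite_Iio _).image _

/-- the union of all regions -/
def U : Set (ℝ × ℝ) :=
  {p | (∃ a b c, X.cell a b c ∧ p ∈ tri (X.P a) (X.P b) (X.P c)) ∨
    ∃ a b c, X.outs a b c ∧ p ∈ otri (X.P a) (X.P b) (X.P c)}

lemma cell_lt' {a b c : ℕ} (h : X.cell a b c) : a < X.N ∧ b < X.N ∧ c < X.N :=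
  ⟨X.cell_lt _ _ _ h, X.cell_lt _ _ _ (X.cell_rot _ _ _ h),
    X.cell_lt _ _ _ (X.cell_rot _ _ _ (X.cell_rot _ _ _ h))⟩

lemma outs_lt' {a b c : ℕ} (h : X.outs a b c) : a < X.N ∧ b < X.N ∧ c < X.N :=
  ⟨X.outs_lt _ _ _ h, X.outs_lt _ _ _ (X.outs_rot _ _ _ h),
    X.outs_lt _ _ _ (X.outs_rot _ _ _ (X.outs_rot _ _ _ h))⟩

lemma isClosed_U : IsClosed X.U := by
  have : X.U = (⋃ a ∈ Set.Iio X.N, ⋃ b ∈ Set.Iio X.N, ⋃ c ∈ Set.Iio X.N,
      {p | X.cell a b c ∧ p ∈ tri (X.P a) (X.P b) (X.P c)}) ∪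
      ⋃ a ∈ Set.Iio X.N, ⋃ b ∈ Set.Iio X.N, ⋃ c ∈ Set.Iio X.N,
      {p | X.outs a b c ∧ p ∈ otri (X.P a) (X.P b) (X.P c)} := by
    ext p
    simp only [U, mem_ofPred_eq, mem_union, mem_iUnion, mem_Iio, exists_prop]
    constructor
    · rintro (⟨a, b, c, h, hp⟩ | ⟨a, b, c, h, hp⟩)
      · obtain ⟨h1, h2, h3⟩ := X.cell_lt' h
        exact Or.inl ⟨a, h1, b, h2, c, h3, h, hp⟩
      · obtain ⟨h1, h2, h3⟩ := X.outs_lt' h
        exact Or.inr ⟨a, h1, b, h2, c, h3, h, hp⟩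
    · rintro (⟨a, -, b, -, c, -, h, hp⟩ | ⟨a, -, b, -, c, -, h, hp⟩)
      · exact Or.inl ⟨a, b, c, h, hp⟩
      · exact Or.inr ⟨a, b, c, h, hp⟩
  rw [this]
  have hc1 : ∀ a b c, IsClosed {p | X.cell a b c ∧ p ∈ tri (X.P a) (X.P b) (X.P c)} := by
    intro a b c
    by_cases h : X.cell a b c
    · simpa [h] using isClosed_tri _ _ _
    · simp [h]
  have hc2 : ∀ a b c, IsClosed {p | X.outs a b c ∧ p ∈ otri (X.P a) (X.P b) (X.P c)} := by
    intro a b c
    by_cases h : X.outs a b c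
    · simpa [h] using isClosed_otri _ _ _
    · simp [h]
  refine IsClosed.union ?_ ?_
  · exact (Set.finite_Iio _).isClosed_biUnion fun a _ => (Set.finite_Iio _).isClosed_biUnion
      fun b _ => (Set.finite_Iio _).isClosed_biUnion fun c _ => hc1 a b c
  · exact (Set.finite_Iio _).isClosed_biUnion fun a _ => (Set.finite_Iio _).isClosed_biUnion
      fun b _ => (Set.finite_Iio _).isClosed_biUnion fun c _ => hc2 a b c

lemma tri_sub_U {a b c : ℕ} (h : X.cell a b c) : tri (X.P a) (X.P b) (X.P c) ⊆ X.U :=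
  fun _ hp => Or.inl ⟨a, b, c, h, hp⟩
lemma otri_sub_U {a b c : ℕ} (h : X.outs a b c) : otri (X.P a) (X.P b) (X.P c) ⊆ X.U :=
  fun _ hp => Or.inr ⟨a, b, c, h, hp⟩

/-- trichotomy for points of a closed triangle -/
lemma tri_cases {a b c : ℕ} (h : X.cell a b c) {p : ℝ × ℝ}
    (hp : p ∈ tri (X.P a) (X.P b) (X.P c)) :
    tri (X.P a) (X.P b) (X.P c) ∈ 𝓝 p ∨ p ∈ segment ℝ (X.P a) (X.P b) ∨
      p ∈ segment ℝ (X.P b) (X.P c) ∨ p ∈ segment ℝ (X.P c) (X.P a) := by
  have h1 := X.cell_pos _ _ _ h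
  rcases hp.1.eq_or_lt with e | e
  · exact Or.inr (Or.inl (mem_seg h1 hp e.symm))
  rcases hp.2.1.eq_or_lt with e' | e'
  · refine Or.inr (Or.inr (Or.inl (mem_seg (c := X.P a) ?_ ?_ e'.symm)))
    · rw [ori_rot]; exact h1
    · rw [tri_rot]; exact hp
  rcases hp.2.2.eq_or_lt with e'' | e''
  · refine Or.inr (Or.inr (Or.inr (mem_seg (c := X.P b) ?_ ?_ e''.symm)))
    · rw [ori_rot, ori_rot]; exact h1
    · rw [tri_rot, tri_rot]; exact hp
  exact Or.inl (nhds_t e e' e'')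

lemma otri_cases {a b c : ℕ} (h : X.outs a b c) {p : ℝ × ℝ}
    (hp : p ∈ otri (X.P a) (X.P b) (X.P c)) :
    otri (X.P a) (X.P b) (X.P c) ∈ 𝓝 p ∨ p ∈ segment ℝ (X.P a) (X.P b) ∨
      p ∈ segment ℝ (X.P b) (X.P c) ∨ p ∈ segment ℝ (X.P c) (X.P a) := by
  have h1 := X.outs_pos _ _ _ h
  rcases lt_or_ge (ori (X.P a) (X.P b) p) 0 with e | e
  · exact Or.inl (nhds_o e)
  rcases lt_or_ge (ori (X.P b) (X.P c) p) 0 with e' | e'
  · left; rw [← otri_rot]; exact nhds_o e'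
  rcases lt_or_ge (ori (X.P c) (X.P a) p) 0 with e'' | e''
  · left; rw [← otri_rot, ← otri_rot]; exact nhds_o e''
  have hp' : p ∈ tri (X.P a) (X.P b) (X.P c) := ⟨e, e', e''⟩
  right
  rcases hp with h0 | h0 | h0
  · exact Or.inl (mem_seg h1 hp' (le_antisymm h0 e))
  · refine Or.inr (Or.inl (mem_seg (c := X.P a) ?_ ?_ (le_antisymm h0 e')))
    · rw [ori_rot]; exact h1
    · rw [tri_rot]; exact hp'
  · refine Or.inr (Or.inr (mem_seg (c := X.P b) ?_ ?_ (le_antisymm h0 e'')))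
    · rw [ori_rot, ori_rot]; exact h1
    · rw [tri_rot, tri_rot]; exact hp'

lemma mem_pts_of_lt {a : ℕ} (h : a < X.N) : X.P a ∈ X.pts := ⟨a, h, rfl⟩

lemma side_nhds {a b c : ℕ} (h : X.cell a b c) {p : ℝ × ℝ} (hp : p ∉ X.pts)
    (hs : p ∈ segment ℝ (X.P a) (X.P b)) : X.U ∈ 𝓝 p := by
  obtain ⟨l1, l2, -⟩ := X.cell_lt' h
  have ha : p ≠ X.P a := fun e => hp (e ▸ X.mem_pts_of_lt l1)
  have hb : p ≠ X.P b := fun e => hp (e ▸ X.mem_pts_of_lt l2)
  rcases X.mate a b c h with ⟨d, hd⟩ | ⟨d, hd⟩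
  · exact Filter.mem_of_superset (nhds_tt (X.cell_pos _ _ _ h) (X.cell_pos _ _ _ hd) hs ha hb)
      (Set.union_subset (X.tri_sub_U h) (X.tri_sub_U hd))
  · exact Filter.mem_of_superset (nhds_to (d := X.P d) (X.cell_pos _ _ _ h) hs ha hb)
      (Set.union_subset (X.tri_sub_U h) (X.otri_sub_U hd))

lemma U_nhds {p : ℝ × ℝ} (hU : p ∈ X.U) (hp : p ∉ X.pts) : X.U ∈ 𝓝 p := by
  rcases hU with ⟨a, b, c, h, hm⟩ | ⟨a, b, c, h, hm⟩
  · rcases X.tri_cases h hm with h1 | h1 | h1 | h1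
    · exact Filter.mem_of_superset h1 (X.tri_sub_U h)
    · exact X.side_nhds h hp h1
    · exact X.side_nhds (X.cell_rot _ _ _ h) hp h1
    · exact X.side_nhds (X.cell_rot _ _ _ (X.cell_rot _ _ _ h)) hp h1
  · have h' := X.outs_rot _ _ _ h
    have h'' := X.outs_rot _ _ _ h'
    rcases X.otri_cases h hm with h1 | h1 | h1 | h1
    · exact Filter.mem_of_superset h1 (X.otri_sub_U h)
    · obtain ⟨d, hd⟩ := X.omate _ _ _ h
      exact X.side_nhds hd hp h1
    · obtain ⟨d, hd⟩ := X.omate _ _ _ h'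
      exact X.side_nhds hd hp h1
    · obtain ⟨d, hd⟩ := X.omate _ _ _ h''
      exact X.side_nhds hd hp h1

/-- the closed cells cover the plane -/
lemma cover : X.U = Set.univ := by
  have hrank : 1 < Module.rank ℝ (ℝ × ℝ) := by
    rw [rank_prod', Module.rank_self, one_add_one_eq_two]
    exact Cardinal.one_lt_two
  have hconn : IsConnected (X.pts)ᶜ :=
    X.pts_finite.countable.isConnected_compl_of_one_lt_rank hrank
  -- the set U contains the complement of pts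
  have hsub : (X.pts)ᶜ ⊆ X.U := by
    obtain ⟨a, b, c, ho⟩ := X.some_outs
    have hne : ((X.pts)ᶜ ∩ interior X.U).Nonempty := by
      -- the open half plane ori a b < 0 is infinite
      have hopen : otri (X.P a) (X.P b) (X.P c) ⊆ X.U := X.otri_sub_U ho
      have hpos := X.outs_pos _ _ _ ho
      have hne1 : {q | ori (X.P a) (X.P b) q < 0}.Nonempty := by
        refine ⟨((X.P a).1 * 2 - (X.P c).1, (X.P a).2 * 2 - (X.P c).2), ?_⟩
        show ori _ _ _ < 0
        have : ori (X.P a) (X.P b) ((X.P a).1 * 2 - (X.P c).1, (X.P a).2 * 2 - (X.P c).2) =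
            - ori (X.P a) (X.P b) (X.P c) := by
          simp only [ori]; ring
        rw [this]; linarith
      have hop : IsOpen {q | ori (X.P a) (X.P b) q < 0} :=
        isOpen_lt (ori_cont _ _) continuous_const
      have hd : Dense (X.pts)ᶜ := X.pts_finite.countable.dense_compl ℝ
      obtain ⟨q, hq1, hq2⟩ := hd.inter_open_nonempty _ hop hne1
      refine ⟨q, hq2, ?_⟩
      rw [mem_interior_iff_mem_nhds]
      exact Filter.mem_of_superset (nhds_o hq1) hopen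
    have := hconn.isPreconnected.subset_left_of_subset_union (u := interior X.U) (v := (X.U)ᶜ)
      isOpen_interior X.isClosed_U.isOpen_compl
      (Set.disjoint_left.mpr fun x hx hx' => hx' (interior_subset hx))
      (fun p hp => by
        by_cases h : p ∈ X.U
        · exact Or.inl (mem_interior_iff_mem_nhds.mpr (X.U_nhds h hp))
        · exact Or.inr h) hne
    exact this.trans interior_subset
  have hd : Dense (X.pts)ᶜ := X.pts_finite.countable.dense_compl ℝ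
  have := closure_minimal hsub X.isClosed_U
  rw [hd.closure_eq] at this
  exact Set.univ_subset_iff.mp this

/-- clopen argument -/
lemma trapped_aux {C R : Set (ℝ × ℝ)} (hC : IsPreconnected C) (hR : IsClosed R)
    (hne : (C ∩ R).Nonempty) (h : ∀ p ∈ C, p ∈ R → R ∈ 𝓝 p) : C ⊆ R := by
  have := hC.subset_left_of_subset_union (u := interior R) (v := Rᶜ)
      isOpen_interior hR.isOpen_compl
      (Set.disjoint_left.mpr fun x hx hx' => hx' (interior_subset hx))
      (fun p hp => by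
        by_cases h' : p ∈ R
        · exact Or.inl (mem_interior_iff_mem_nhds.mpr (h p hp h'))
        · exact Or.inr h')
      (by
        obtain ⟨p, hp, hp'⟩ := hne
        exact ⟨p, hp, mem_interior_iff_mem_nhds.mpr (h p hp hp')⟩)
  exact this.trans interior_subset

/-- A connected set that avoids all points and all sides except possibly the side `f₁ f₂` is
trapped in one region or in two regions with the common side `f₁ f₂`. -/
lemma trapped {C : Set (ℝ × ℝ)} (hC : IsPreconnected C) (hne : C.Nonempty)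
    (hpts : ∀ p ∈ C, p ∉ X.pts) (f₁ f₂ : ℕ)
    (hav : ∀ a b c, X.cell a b c → ¬ ((a = f₁ ∧ b = f₂) ∨ (a = f₂ ∧ b = f₁)) →
      ∀ p ∈ C, p ∉ segment ℝ (X.P a) (X.P b)) :
    (∃ a b c, X.cell a b c ∧ C ⊆ tri (X.P a) (X.P b) (X.P c)) ∨
    (∃ a b c, X.outs a b c ∧ C ⊆ otri (X.P a) (X.P b) (X.P c)) ∨
    (∃ a b c d, X.cell a b c ∧ X.cell b a d ∧ ((a = f₁ ∧ b = f₂) ∨ (a = f₂ ∧ b = f₁)) ∧
      C ⊆ tri (X.P a) (X.P b) (X.P c) ∪ tri (X.P b) (X.P a) (X.P d)) ∨
    (∃ a b c d, X.cell a b c ∧ X.outs a b d ∧ ((a = f₁ ∧ b = f₂) ∨ (a = f₂ ∧ b = f₁)) ∧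
      C ⊆ tri (X.P a) (X.P b) (X.P c) ∪ otri (X.P a) (X.P b) (X.P d)) := by
  classical
  -- distinctness of the corners of a cell
  have dist : ∀ a b c, X.cell a b c → a ≠ b ∧ b ≠ c ∧ c ≠ a := by
    intro a b c h
    have h1 := X.cell_pos _ _ _ h
    refine ⟨?_, ?_, ?_⟩
    · rintro rfl; simp [ori] at h1
    · rintro rfl; rw [ori_self₂] at h1; exact lt_irrefl _ h1
    · rintro rfl; rw [ori_self₁] at h1; exact lt_irrefl _ h1
  have odist : ∀ a b c, X.outs a b c → a ≠ b ∧ b ≠ c ∧ c ≠ a := by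
    intro a b c h
    have h1 := X.outs_pos _ _ _ h
    refine ⟨?_, ?_, ?_⟩
    · rintro rfl; simp [ori] at h1
    · rintro rfl; rw [ori_self₂] at h1; exact lt_irrefl _ h1
    · rintro rfl; rw [ori_self₁] at h1; exact lt_irrefl _ h1
  -- a cell whose side `a b` is the exceptional one
  have caseT : ∀ a b c, X.cell a b c → ((a = f₁ ∧ b = f₂) ∨ (a = f₂ ∧ b = f₁)) →
      (C ∩ tri (X.P a) (X.P b) (X.P c)).Nonempty → 
      (∃ a b c d, X.cell a b c ∧ X.cell b a d ∧ ((a = f₁ ∧ b = f₂) ∨ (a = f₂ ∧ b = f₁)) ∧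
      C ⊆ tri (X.P a) (X.P b) (X.P c) ∪ tri (X.P b) (X.P a) (X.P d)) ∨
      (∃ a b c d, X.cell a b c ∧ X.outs a b d ∧ ((a = f₁ ∧ b = f₂) ∨ (a = f₂ ∧ b = f₁)) ∧
      C ⊆ tri (X.P a) (X.P b) (X.P c) ∪ otri (X.P a) (X.P b) (X.P d)) := by
    intro a b c h hf hne'
    obtain ⟨l1, l2, -⟩ := X.cell_lt' h
    obtain ⟨d1, d2, d3⟩ := dist a b c h
    have h' := X.cell_rot _ _ _ h
    have h'' := X.cell_rot _ _ _ h'
    have n1 : ¬ ((b = f₁ ∧ c = f₂) ∨ (b = f₂ ∧ c = f₁)) := by omega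
    have n2 : ¬ ((c = f₁ ∧ a = f₂) ∨ (c = f₂ ∧ a = f₁)) := by omega
    rcases X.mate a b c h with ⟨d, hd⟩ | ⟨d, hd⟩
    · left
      refine ⟨a, b, c, d, h, hd, hf, trapped_aux hC ((isClosed_tri _ _ _).union
        (isClosed_tri _ _ _)) (hne'.mono (Set.inter_subset_inter_right _
          Set.subset_union_left)) ?_⟩
      obtain ⟨d4, d5, d6⟩ := dist b a d hd
      have g' := X.cell_rot _ _ _ hd
      have g'' := X.cell_rot _ _ _ g'
      have n3 : ¬ ((a = f₁ ∧ d = f₂) ∨ (a = f₂ ∧ d = f₁)) := by omega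
      have n4 : ¬ ((d = f₁ ∧ b = f₂) ∨ (d = f₂ ∧ b = f₁)) := by omega
      intro p hpC hpR
      have ha : p ≠ X.P a := fun e => hpts p hpC (e ▸ X.mem_pts_of_lt l1)
      have hb : p ≠ X.P b := fun e => hpts p hpC (e ▸ X.mem_pts_of_lt l2)
      have side : p ∈ segment ℝ (X.P a) (X.P b) →
          tri (X.P a) (X.P b) (X.P c) ∪ tri (X.P b) (X.P a) (X.P d) ∈ 𝓝 p := fun hs =>
        nhds_tt (X.cell_pos _ _ _ h) (X.cell_pos _ _ _ hd) hs ha hb
      rcases hpR with hpR | hpR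
      · rcases X.tri_cases h hpR with k | k | k | k
        · exact Filter.mem_of_superset k Set.subset_union_left
        · exact side k
        · exact absurd k (hav _ _ _ h' n1 p hpC)
        · exact absurd k (hav _ _ _ h'' n2 p hpC)
      · rcases X.tri_cases hd hpR with k | k | k | k
        · exact Filter.mem_of_superset k Set.subset_union_right
        · exact side (by rw [segment_symm]; exact k)
        · exact absurd k (hav _ _ _ g' n3 p hpC)
        · exact absurd k (hav _ _ _ g'' n4 p hpC)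
    · right
      refine ⟨a, b, c, d, h, hd, hf, trapped_aux hC ((isClosed_tri _ _ _).union
        (isClosed_otri _ _ _)) (hne'.mono (Set.inter_subset_inter_right _
          Set.subset_union_left)) ?_⟩
      obtain ⟨d4, d5, d6⟩ := odist a b d hd
      have g' := X.outs_rot _ _ _ hd
      have g'' := X.outs_rot _ _ _ g'
      obtain ⟨m1, hm1⟩ := X.omate _ _ _ g'
      obtain ⟨m2, hm2⟩ := X.omate _ _ _ g''
      have n3 : ¬ ((b = f₁ ∧ d = f₂) ∨ (b = f₂ ∧ d = f₁)) := by omega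
      have n4 : ¬ ((d = f₁ ∧ a = f₂) ∨ (d = f₂ ∧ a = f₁)) := by omega
      intro p hpC hpR
      have ha : p ≠ X.P a := fun e => hpts p hpC (e ▸ X.mem_pts_of_lt l1)
      have hb : p ≠ X.P b := fun e => hpts p hpC (e ▸ X.mem_pts_of_lt l2)
      have side : p ∈ segment ℝ (X.P a) (X.P b) →
          tri (X.P a) (X.P b) (X.P c) ∪ otri (X.P a) (X.P b) (X.P d) ∈ 𝓝 p := fun hs =>
        nhds_to (X.cell_pos _ _ _ h) hs ha hb
      rcases hpR with hpR | hpR
      · rcases X.tri_cases h hpR with k | k | k | k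
        · exact Filter.mem_of_superset k Set.subset_union_left
        · exact side k
        · exact absurd k (hav _ _ _ h' n1 p hpC)
        · exact absurd k (hav _ _ _ h'' n2 p hpC)
      · rcases X.otri_cases hd hpR with k | k | k | k
        · exact Filter.mem_of_superset k Set.subset_union_right
        · exact side k
        · exact absurd k (hav _ _ _ hm1 n3 p hpC)
        · exact absurd k (hav _ _ _ hm2 n4 p hpC)
  obtain ⟨p0, hp0⟩ := hne
  have hU : p0 ∈ X.U := by rw [X.cover]; trivial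
  rcases hU with ⟨a, b, c, h, hm⟩ | ⟨a, b, c, h, hm⟩
  · have h' := X.cell_rot _ _ _ h
    have h'' := X.cell_rot _ _ _ h'
    by_cases q1 : (a = f₁ ∧ b = f₂) ∨ (a = f₂ ∧ b = f₁)
    · exact Or.inr (Or.inr (caseT a b c h q1 ⟨p0, hp0, hm⟩))
    by_cases q2 : (b = f₁ ∧ c = f₂) ∨ (b = f₂ ∧ c = f₁)
    · exact Or.inr (Or.inr (caseT b c a h' q2 ⟨p0, hp0, by rw [tri_rot]; exact hm⟩))
    by_cases q3 : (c = f₁ ∧ a = f₂) ∨ (c = f₂ ∧ a = f₁)
    · exact Or.inr (Or.inr (caseT c a b h'' q3 ⟨p0, hp0, by rw [tri_rot, tri_rot]; exact hm⟩))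
    refine Or.inl ⟨a, b, c, h, trapped_aux hC (isClosed_tri _ _ _) ⟨p0, hp0, hm⟩ ?_⟩
    intro p hpC hpR
    rcases X.tri_cases h hpR with k | k | k | k
    · exact k
    · exact absurd k (hav _ _ _ h q1 p hpC)
    · exact absurd k (hav _ _ _ h' q2 p hpC)
    · exact absurd k (hav _ _ _ h'' q3 p hpC)
  · -- outer region
    have caseO : ∀ a b c, X.outs a b c → ((a = f₁ ∧ b = f₂) ∨ (a = f₂ ∧ b = f₁)) →
        p0 ∈ otri (X.P a) (X.P b) (X.P c) →
        (∃ a b c d, X.cell a b c ∧ X.outs a b d ∧ ((a = f₁ ∧ b = f₂) ∨ (a = f₂ ∧ b = f₁)) ∧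
        C ⊆ tri (X.P a) (X.P b) (X.P c) ∪ otri (X.P a) (X.P b) (X.P d)) := by
      intro a b d hd hf hm
      obtain ⟨c, h⟩ := X.omate _ _ _ hd
      obtain ⟨l1, l2, -⟩ := X.cell_lt' h
      obtain ⟨d1, d2, d3⟩ := dist a b c h
      have h' := X.cell_rot _ _ _ h
      have h'' := X.cell_rot _ _ _ h'
      have n1 : ¬ ((b = f₁ ∧ c = f₂) ∨ (b = f₂ ∧ c = f₁)) := by omega
      have n2 : ¬ ((c = f₁ ∧ a = f₂) ∨ (c = f₂ ∧ a = f₁)) := by omega
      refine ⟨a, b, c, d, h, hd, hf, trapped_aux hC ((isClosed_tri _ _ _).union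
        (isClosed_otri _ _ _)) ⟨p0, hp0, Or.inr hm⟩ ?_⟩
      obtain ⟨d4, d5, d6⟩ := odist a b d hd
      have g' := X.outs_rot _ _ _ hd
      have g'' := X.outs_rot _ _ _ g'
      obtain ⟨m1, hm1⟩ := X.omate _ _ _ g'
      obtain ⟨m2, hm2⟩ := X.omate _ _ _ g''
      have n3 : ¬ ((b = f₁ ∧ d = f₂) ∨ (b = f₂ ∧ d = f₁)) := by omega
      have n4 : ¬ ((d = f₁ ∧ a = f₂) ∨ (d = f₂ ∧ a = f₁)) := by omega
      intro p hpC hpR
      have ha : p ≠ X.P a := fun e => hpts p hpC (e ▸ X.mem_pts_of_lt l1)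
      have hb : p ≠ X.P b := fun e => hpts p hpC (e ▸ X.mem_pts_of_lt l2)
      have side : p ∈ segment ℝ (X.P a) (X.P b) →
          tri (X.P a) (X.P b) (X.P c) ∪ otri (X.P a) (X.P b) (X.P d) ∈ 𝓝 p := fun hs =>
        nhds_to (X.cell_pos _ _ _ h) hs ha hb
      rcases hpR with hpR | hpR
      · rcases X.tri_cases h hpR with k | k | k | k
        · exact Filter.mem_of_superset k Set.subset_union_left
        · exact side k
        · exact absurd k (hav _ _ _ h' n1 p hpC)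
        · exact absurd k (hav _ _ _ h'' n2 p hpC)
      · rcases X.otri_cases hd hpR with k | k | k | k
        · exact Filter.mem_of_superset k Set.subset_union_right
        · exact side k
        · exact absurd k (hav _ _ _ hm1 n3 p hpC)
        · exact absurd k (hav _ _ _ hm2 n4 p hpC)
    have h' := X.outs_rot _ _ _ h
    have h'' := X.outs_rot _ _ _ h'
    obtain ⟨m0, hm0⟩ := X.omate _ _ _ h
    obtain ⟨m1, hm1⟩ := X.omate _ _ _ h'
    obtain ⟨m2, hm2⟩ := X.omate _ _ _ h''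
    by_cases q1 : (a = f₁ ∧ b = f₂) ∨ (a = f₂ ∧ b = f₁)
    · exact Or.inr (Or.inr (Or.inr (caseO a b c h q1 hm)))
    by_cases q2 : (b = f₁ ∧ c = f₂) ∨ (b = f₂ ∧ c = f₁)
    · exact Or.inr (Or.inr (Or.inr (caseO b c a h' q2 (by rw [otri_rot]; exact hm))))
    by_cases q3 : (c = f₁ ∧ a = f₂) ∨ (c = f₂ ∧ a = f₁)
    · exact Or.inr (Or.inr (Or.inr (caseO c a b h'' q3 (by rw [otri_rot, otri_rot]; exact hm))))
    refine Or.inr (Or.inl ⟨a, b, c, h, trapped_aux hC (isClosed_otri _ _ _) ⟨p0, hp0, hm⟩ ?_⟩)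
    intro p hpC hpR
    rcases X.otri_cases h hpR with k | k | k | k
    · exact k
    · exact absurd k (hav _ _ _ hm0 q1 p hpC)
    · exact absurd k (hav _ _ _ hm1 q2 p hpC)
    · exact absurd k (hav _ _ _ hm2 q3 p hpC)

end Pic

end Pool.Agent.R30.C4
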