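import Pool.Agent.R30.C4.Defs
import Pool.Agent.R30.C4.Geom
import Pool.Agent.R30.C4.Check

set_option autoImplicit false

/-! The example: a maximal 1-plane graph of order 27 and connectivity 5. -/

namespace Pool.Agent.R30.C4

open Set Topology

/-- the points -/
noncomputable def P (i : ℕ) : ℝ × ℝ := ((cX i : ℝ) / cW i, (cY i : ℝ) / cW i)

lemma w_pos {i : ℕ} (h : i < 42) : (0 : ℝ) < cW i := by exact_mod_cast k_w i h

lemma ori_P {i j k : ℕ} (hi : i < 42) (hj : j < 42) (hk : k < 42) :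
    ori (P i) (P j) (P k) * (cW i * cW j * cW k) = (dp i j k : ℝ) - dm i j k := by
  have h1 := (w_pos hi).ne'
  have h2 := (w_pos hj).ne'
  have h3 := (w_pos hk).ne'
  simp only [ori, P, dp, dm]
  push_cast
  field_simp
  ring

lemma posB_ori {i j k : ℕ} (hi : i < 42) (hj : j < 42) (hk : k < 42) (h : posB i j k = true) :
    0 < ori (P i) (P j) (P k) := by
  have h1 := w_pos hi
  have h2 := w_pos hj
  have h3 := w_pos hk
  have h4 : dm i j k < dp i j k := by simpa [posB] using h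
  have h5 : (0 : ℝ) < (dp i j k : ℝ) - dm i j k := by
    have : (dm i j k : ℝ) < dp i j k := by exact_mod_cast h4
    linarith
  rw [← ori_P hi hj hk] at h5
  exact (mul_pos_iff_of_pos_right (by positivity)).mp h5

lemma P_inj {i j : ℕ} (hi : i < 42) (hj : j < 42) (h : P i = P j) : i = j := by
  have key : ∀ {i j : ℕ}, i < 42 → j < i → P i ≠ P j := by
    intro i j hi hj h
    apply k_inj i hi j hj
    have h1 := congrArg Prod.fst h
    have h2 := congrArg Prod.snd h
    simp only [P] at h1 h2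
    rw [div_eq_div_iff (w_pos hi).ne' (w_pos (hj.trans hi)).ne'] at h1 h2
    exact ⟨by exact_mod_cast h1, by exact_mod_cast h2⟩
  rcases lt_trichotomy i j with h' | h' | h'
  · exact absurd h.symm (key hj h')
  · exact h'
  · exact absurd h (key hi h')

/-- cells -/
def Cell (a b c : ℕ) : Prop := (a, b, c) ∈ cellsL
/-- outer triangle -/
def Outs (a b c : ℕ) : Prop := (a, b, c) ∈ outsL

lemma cell_rot (a b c : ℕ) (h : Cell a b c) : Cell b c a := by
  have := List.all_eq_true.mp k_rot _ h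
  simpa [Cell] using this

lemma outs_rot (a b c : ℕ) (h : Outs a b c) : Outs b c a := by
  have := List.all_eq_true.mp k_orot _ h
  simpa [Outs] using this

lemma cell_lt (a b c : ℕ) (h : Cell a b c) : a < 42 := by
  have := List.all_eq_true.mp k_lt _ h
  simpa using this

lemma outs_lt27 (a b c : ℕ) (h : Outs a b c) : a < 27 := by
  have := List.all_eq_true.mp k_olt _ h
  simpa using this

lemma cell_lt3 {a b c : ℕ} (h : Cell a b c) : a < 42 ∧ b < 42 ∧ c < 42 :=
  ⟨cell_lt _ _ _ h, cell_lt _ _ _ (cell_rot _ _ _ h),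
    cell_lt _ _ _ (cell_rot _ _ _ (cell_rot _ _ _ h))⟩

lemma outs_lt3 {a b c : ℕ} (h : Outs a b c) : a < 27 ∧ b < 27 ∧ c < 27 :=
  ⟨outs_lt27 _ _ _ h, outs_lt27 _ _ _ (outs_rot _ _ _ h),
    outs_lt27 _ _ _ (outs_rot _ _ _ (outs_rot _ _ _ h))⟩

lemma cell_pos (a b c : ℕ) (h : Cell a b c) : 0 < ori (P a) (P b) (P c) := by
  obtain ⟨h1, h2, h3⟩ := cell_lt3 h
  exact posB_ori h1 h2 h3 (List.all_eq_true.mp k_pos _ h)

lemma outs_pos (a b c : ℕ) (h : Outs a b c) : 0 < ori (P a) (P b) (P c) := by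
  obtain ⟨h1, h2, h3⟩ := outs_lt3 h
  exact posB_ori (by omega) (by omega) (by omega) (List.all_eq_true.mp k_opos _ h)

lemma mate (a b c : ℕ) (h : Cell a b c) : (∃ d, Cell b a d) ∨ ∃ d, Outs a b d := by
  have := List.all_eq_true.mp k_mate _ h
  simp only [Bool.or_eq_true, List.any_eq_true, Bool.and_eq_true, Nat.beq_eq] at this
  rcases this with ⟨y, hy, h1, h2⟩ | ⟨y, hy, h1, h2⟩
  · left
    refine ⟨y.2.2, ?_⟩
    rw [Cell, ← h1, ← h2]; exact hy
  · right
    refine ⟨y.2.2, ?_⟩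
    rw [Outs, ← h1, ← h2]; exact hy

lemma omate (a b c : ℕ) (h : Outs a b c) : ∃ d, Cell a b d := by
  have := List.all_eq_true.mp k_omate _ h
  simp only [List.any_eq_true, Bool.and_eq_true, Nat.beq_eq] at this
  obtain ⟨y, hy, h1, h2⟩ := this
  refine ⟨y.2.2, ?_⟩
  rw [Cell, ← h1, ← h2]; exact hy

lemma some_outs : ∃ a b c, Outs a b c := by
  rcases hL : outsL with _ | ⟨⟨a, b, c⟩, l⟩
  · exact absurd hL (by decide)
  · exact ⟨a, b, c, by rw [Outs, hL]; exact List.mem_cons_self⟩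

/-- the picture -/
noncomputable def X : Pic where
  P := P
  N := 42
  cell := Cell
  outs := Outs
  cell_rot := cell_rot
  outs_rot := outs_rot
  cell_lt := cell_lt
  outs_lt := fun a b c h => (outs_lt27 a b c h).trans (by norm_num)
  cell_pos := cell_pos
  outs_pos := outs_pos
  mate := mate
  omate := omate
  some_outs := some_outs

/-! ### the graph -/

/-- The graph. -/
def G : SimpleGraph (Fin 27) where
  Adj u v := adjB u v = true
  symm := ⟨fun u v h => by rw [k_symm v v.2 u u.2]; exact h⟩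
  loopless := ⟨fun u h => by rw [k_irrefl u u.2] at h; exact absurd h (by decide)⟩

lemma adj_iff (u v : Fin 27) : G.Adj u v ↔ adjB u v = true := Iff.rfl

lemma edges_lt {e : ℕ × ℕ} (h : e ∈ edgesL) : e.1 < e.2 ∧ e.2 < 27 := by
  have := List.all_eq_true.mp k_elt _ h
  simpa using this

lemma adj_of_edge {e : ℕ × ℕ} (h : e ∈ edgesL) : adjB e.1 e.2 = true := by
  obtain ⟨h1, h2⟩ := edges_lt h
  rw [k_edges e.2 h2 e.1 h1]
  simpa using h

/-- the edge as an element of `Sym2` -/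
lemma exists_edge {u v : Fin 27} (h : G.Adj u v) :
    ((u : ℕ), (v : ℕ)) ∈ edgesL ∨ ((v : ℕ), (u : ℕ)) ∈ edgesL := by
  rcases lt_trichotomy (u : ℕ) v with h' | h' | h'
  · left
    have := k_edges v v.2 u h'
    rw [(adj_iff u v).mp h] at this
    simpa using this.symm
  · exact absurd (Fin.ext h') h.ne
  · right
    have := k_edges u u.2 v h'
    rw [(adj_iff v u).mp h.symm] at this
    simpa using this.symm

/-- arcs -/
noncomputable def arcG (e : Sym2 (Fin 27)) : Set (ℝ × ℝ) :=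
  Sym2.lift ⟨fun (u v : Fin 27) => segment ℝ (P (u : ℕ)) (P (v : ℕ)),
    fun _ _ => segment_symm _ _ _⟩ e

@[simp] lemma arcG_mk (u v : Fin 27) : arcG s(u, v) = segment ℝ (P u) (P v) := rfl

/-- code of an edge -/
def toE (e : ℕ × ℕ) (h : e ∈ edgesL) : Sym2 (Fin 27) :=
  s(⟨e.1, (edges_lt h).1.trans (edges_lt h).2⟩, ⟨e.2, (edges_lt h).2⟩)

lemma toE_mem {e : ℕ × ℕ} (h : e ∈ edgesL) : toE e h ∈ G.edgeSet := by
  rw [toE, SimpleGraph.mem_edgeSet]
  exact adj_of_edge h

lemma arcG_toE {e : ℕ × ℕ} (h : e ∈ edgesL) : arcG (toE e h) = segment ℝ (P e.1) (P e.2) := rfl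

lemma toE_inj {e f : ℕ × ℕ} (he : e ∈ edgesL) (hf : f ∈ edgesL) (h : toE e he = toE f hf) :
    e = f := by
  have l1 := (edges_lt he).1
  have l2 := (edges_lt hf).1
  simp only [toE, Sym2.eq_iff, Fin.mk.injEq] at h
  apply Prod.ext <;> omega

lemma exists_toE {e : Sym2 (Fin 27)} (he : e ∈ G.edgeSet) : ∃ c, ∃ h : c ∈ edgesL, toE c h = e := by
  induction e using Sym2.ind with
  | _ u v =>
    rw [SimpleGraph.mem_edgeSet] at he
    rcases exists_edge he with h | h
    · exact ⟨_, h, rfl⟩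
    · exact ⟨_, h, Sym2.eq_swap⟩

lemma isArc_segment {a b : ℝ × ℝ} (h : a ≠ b) : IsArc (segment ℝ a b) a b := by
  refine ⟨fun t => (1 - t) • a + t • b, by fun_prop, ?_, by simp, by simp, ?_⟩
  · intro s _ t _ hst
    simp only at hst
    have h1 : (t - s) • (b - a) = 0 := by
      have : (t - s) • (b - a) = ((1 - t) • a + t • b) - ((1 - s) • a + s • b) := by module
      rw [this, hst, sub_self]
    rcases smul_eq_zero.mp h1 with h2 | h2
    · linarith
    · exact absurd (sub_eq_zero.mp h2).symm h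
  · rw [segment_eq_image]

lemma off_seg {u v w : ℕ} (hu : u < 27) (hv : v < 27) (hw : w < 27) (h : offB u v w = true) :
    P w ∉ segment ℝ (P u) (P v) := by
  intro hs
  have h0 := seg_ori hs
  simp only [offB, Bool.or_eq_true] at h
  rcases h with (h | h) | h
  · have := posB_ori (by omega) (by omega) (by omega) h
    linarith
  · have := posB_ori (i := v) (j := u) (k := w) (by omega) (by omega) (by omega) h
    rw [ori_swap] at this; linarith
  · obtain ⟨s, t, hs, ht, hst, he⟩ := hs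
    have e1 := congrArg Prod.fst he
    have e2 := congrArg Prod.snd he
    simp only [Prod.fst_add, Prod.smul_fst, smul_eq_mul, Prod.snd_add, Prod.smul_snd, P,
      k_w1 u hu, k_w1 v hv, k_w1 w hw, Nat.cast_one, div_one] at e1 e2
    have h' : (cX w : ℝ) * (cX u + cX v) + cY w * (cY u + cY v) <
        cX w * cX w + cX u * cX v + (cY w * cY w + cY u * cY v) := by
      have : cX w * (cX u + cX v) + cY w * (cY u + cY v) <
        cX w * cX w + cX u * cX v + (cY w * cY w + cY u * cY v) := by simpa using h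
      exact_mod_cast this
    have hs' : s = 1 - t := by linarith
    subst hs'
    have key : ((cX w : ℝ) - cX u) * (cX w - cX v) + ((cY w : ℝ) - cY u) * (cY w - cY v) =
        -(t * (1 - t)) * (((cX v : ℝ) - cX u) ^ 2 + ((cY v : ℝ) - cY u) ^ 2) := by
      rw [← e1, ← e2]; ring
    have hpos : 0 ≤ t * (1 - t) * (((cX v : ℝ) - cX u) ^ 2 + ((cY v : ℝ) - cY u) ^ 2) := by
      positivity
    nlinarith

/-- The drawing. -/
noncomputable def D : Drawing G where
  pos v := P v
  arc := arcG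
  pos_injective := fun u v h => Fin.ext (P_inj (by omega) (by omega) h)
  arc_isArc := fun u v h => isArc_segment fun e =>
    h.ne (Fin.ext (P_inj (by omega) (by omega) e))
  arc_avoids := by
    intro u v w h hm
    by_contra hne
    rw [not_or] at hne
    have key : ∀ e ∈ edgesL, (w : ℕ) ≠ e.1 → (w : ℕ) ≠ e.2 →
        P w ∉ segment ℝ (P e.1) (P e.2) := by
      intro e he n1 n2
      have l := edges_lt he
      have := List.all_eq_true.mp k_off _ he
      have := List.all_eq_true.mp this w (List.mem_range.mpr w.2)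
      simp only [Bool.or_eq_true, Nat.beq_eq] at this
      rcases this with (h1 | h1) | h1
      · exact absurd h1 n1
      · exact absurd h1 n2
      · exact off_seg (by omega) (by omega) w.2 h1
    have n1 : (w : ℕ) ≠ u := fun e => hne.1 (Fin.ext e)
    have n2 : (w : ℕ) ≠ v := fun e => hne.2 (Fin.ext e)
    rcases exists_edge h with h1 | h1
    · exact key _ h1 n1 n2 hm
    · exact key _ h1 n2 n1 (by rw [segment_symm]; exact hm)

lemma D_arc {e : ℕ × ℕ} (h : e ∈ edgesL) : D.arc (toE e h) = segment ℝ (P e.1) (P e.2) := by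
  show arcG (toE e h) = _
  exact arcG_toE h

/-! ### crossings -/

lemma seg_combo {a b p : ℝ × ℝ} (c : ℝ × ℝ) (d : ℝ × ℝ) (hp : p ∈ segment ℝ a b) :
    ∃ s t : ℝ, 0 ≤ s ∧ 0 ≤ t ∧ s + t = 1 ∧ ori c d p = s * ori c d a + t * ori c d b := by
  obtain ⟨s, t, hs, ht, hst, rfl⟩ := hp
  refine ⟨s, t, hs, ht, hst, ?_⟩
  have : s = 1 - t := by linarith
  subst this
  simp only [ori, Prod.fst_add, Prod.smul_fst, smul_eq_mul, Prod.snd_add, Prod.smul_snd]
  ring

lemma not_same_side {a b c d p : ℝ × ℝ} (h1 : 0 < ori a b c) (h2 : 0 < ori a b d)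
    (hp : p ∈ segment ℝ c d) : ori a b p ≠ 0 := by
  obtain ⟨s, t, hs, ht, hst, he⟩ := seg_combo a b hp
  rw [he]
  rcases hs.eq_or_lt with h | h
  · have : t = 1 := by linarith
    rw [← h, this]; simp [h2.ne']
  · have : 0 < s * ori a b c := by positivity
    have : 0 ≤ t * ori a b d := by positivity
    linarith

lemma share {a b d p : ℝ × ℝ} (h : ori a b d ≠ 0) (h1 : p ∈ segment ℝ a b)
    (h2 : p ∈ segment ℝ a d) : p = a := by
  have h0 := seg_ori h1
  obtain ⟨s, t, hs, ht, hst, rfl⟩ := h2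
  have hs' : s = 1 - t := by linarith
  subst hs'
  have : ori a b ((1 - t) • a + t • d) = t * ori a b d := by
    simp only [ori, Prod.fst_add, Prod.smul_fst, smul_eq_mul, Prod.snd_add, Prod.smul_snd]
    ring
  rw [this] at h0
  rcases mul_eq_zero.mp h0 with h3 | h3
  · rw [h3]; simp
  · exact absurd h3 h

lemma ne_of_pos {i j k : ℕ} (hi : i < 42) (hj : j < 42) (hk : k < 42)
    (h : posB i j k = true ∨ posB j i k = true) : ori (P i) (P j) (P k) ≠ 0 := by
  rcases h with h | h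
  · exact (posB_ori hi hj hk h).ne'
  · have := posB_ori hj hi hk h
    rw [ori_swap] at this
    intro h0; rw [h0] at this; simp at this

lemma sep_vertex {a b c d : ℕ} (ha : a < 27) (hb : b < 27) (hc : c < 27) (hd : d < 27)
    (h : sepB a b c d = true) {p : ℝ × ℝ} (h1 : p ∈ segment ℝ (P a) (P b))
    (h2 : p ∈ segment ℝ (P c) (P d)) : ∃ v : Fin 27, p = P v := by
  have a' : a < 42 := by omega
  have b' : b < 42 := by omega
  have c' : c < 42 := by omega
  have d' : d < 42 := by omega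
  simp only [sepB, Bool.or_eq_true, Bool.and_eq_true, Nat.beq_eq] at h
  rcases h with ((((((h | h) | h) | h) | h) | h) | h) | h
  · exact absurd (seg_ori h1) (not_same_side (posB_ori a' b' c' h.1) (posB_ori a' b' d' h.2) h2)
  · exact absurd (seg_ori (by rw [segment_symm]; exact h1))
      (not_same_side (posB_ori b' a' c' h.1) (posB_ori b' a' d' h.2) h2)
  · exact absurd (seg_ori h2) (not_same_side (posB_ori c' d' a' h.1) (posB_ori c' d' b' h.2) h1)
  · exact absurd (seg_ori (by rw [segment_symm]; exact h2))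
      (not_same_side (posB_ori d' c' a' h.1) (posB_ori d' c' b' h.2) h1)
  · obtain ⟨rfl, h⟩ := h
    exact ⟨⟨a, ha⟩, share (ne_of_pos a' b' d' h) h1 h2⟩
  · obtain ⟨rfl, h⟩ := h
    exact ⟨⟨a, ha⟩, share (ne_of_pos a' b' c' h) h1 (by rw [segment_symm]; exact h2)⟩
  · obtain ⟨rfl, h⟩ := h
    refine ⟨⟨b, hb⟩, share (b := P a) (d := P d) ?_ (by rw [segment_symm]; exact h1) h2⟩
    exact ne_of_pos b' a' d' h.symm
  · obtain ⟨rfl, h⟩ := h
    refine ⟨⟨b, hb⟩, share (b := P a) (d := P c) ?_ (by rw [segment_symm]; exact h1)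
      (by rw [segment_symm]; exact h2)⟩
    exact ne_of_pos b' a' c' h.symm

lemma mem_cross_edges {e f : ℕ × ℕ} (h : (e, f) ∈ crossP) : e ∈ edgesL ∧ f ∈ edgesL := by
  have h1 := List.all_eq_true.mp k_crossE _ h
  have hsw : (f, e) ∈ crossP := by
    simp only [crossP, List.mem_append, List.mem_map, Prod.mk.injEq] at h ⊢
    rcases h with ⟨x, hx, rfl, rfl⟩ | ⟨x, hx, rfl, rfl⟩
    · exact Or.inr ⟨x, hx, rfl, rfl⟩
    · exact Or.inl ⟨x, hx, rfl, rfl⟩
  have h2 := List.all_eq_true.mp k_crossE _ hsw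
  exact ⟨by simpa using h1, by simpa using h2⟩

lemma crossP_symm {e f : ℕ × ℕ} (h : (e, f) ∈ crossP) : (f, e) ∈ crossP := by
  simp only [crossP, List.mem_append, List.mem_map, Prod.mk.injEq] at h ⊢
  rcases h with ⟨x, hx, rfl, rfl⟩ | ⟨x, hx, rfl, rfl⟩
  · exact Or.inr ⟨x, hx, rfl, rfl⟩
  · exact Or.inl ⟨x, hx, rfl, rfl⟩

lemma crossP_fun {e f f' : ℕ × ℕ} (h : (e, f) ∈ crossP) (h' : (e, f') ∈ crossP) : f = f' := by
  have := List.all_eq_true.mp (List.all_eq_true.mp k_crossFun _ h) _ h'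
  simpa using this

lemma cross_mem {e f : ℕ × ℕ} (he : e ∈ edgesL) (hf : f ∈ edgesL) (hne : e ≠ f) {p : ℝ × ℝ}
    (h1 : p ∈ segment ℝ (P e.1) (P e.2)) (h2 : p ∈ segment ℝ (P f.1) (P f.2))
    (hp : ∀ v : Fin 27, p ≠ P v) : (e, f) ∈ crossP := by
  have := List.all_eq_true.mp (List.all_eq_true.mp k_sep _ he) _ hf
  simp only [Bool.or_eq_true, Bool.and_eq_true, Nat.beq_eq] at this
  have le := edges_lt he
  have lf := edges_lt hf
  rcases this with (h | h) | h
  · exact absurd (Prod.ext h.1 h.2) hne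
  · obtain ⟨v, hv⟩ := sep_vertex (by omega) le.2 (by omega) lf.2 h h1 h2
    exact absurd hv (hp v)
  · simpa using h

lemma crosses_iff {e f : Sym2 (Fin 27)} (h : D.Crosses e f) :
    ∃ c d, ∃ hc : c ∈ edgesL, ∃ hd : d ∈ edgesL, toE c hc = e ∧ toE d hd = f ∧
      (c, d) ∈ crossP := by
  obtain ⟨he, hf, hne, p, h1, h2, hp⟩ := h
  obtain ⟨c, hc, rfl⟩ := exists_toE he
  obtain ⟨d, hd, rfl⟩ := exists_toE hf
  refine ⟨c, d, hc, hd, rfl, rfl, ?_⟩
  rw [D_arc] at h1 h2
  refine cross_mem hc hd ?_ h1 h2 hp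
  rintro rfl
  exact hne rfl

theorem D_onePlane : D.IsOnePlane := by
  intro e f f' h h'
  obtain ⟨c, d, hc, hd, rfl, rfl, hx⟩ := crosses_iff h
  obtain ⟨c', d', hc', hd', e1, rfl, hx'⟩ := crosses_iff h'
  obtain rfl := toE_inj hc' hc e1
  obtain rfl := crossP_fun hx hx'
  rfl

lemma div_seg {a c p q x : ℕ} (ha : a < 27) (hc : c < 27) (hx : x < 42)
    (h : divB a c p q x = true) : P x ∈ segment ℝ (P a) (P c) := by
  simp only [divB, Bool.and_eq_true, Nat.blt_eq, Nat.beq_eq] at h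
  obtain ⟨⟨⟨hp, hq⟩, h1⟩, h2⟩ := h
  have hp' : (0 : ℝ) < p := by exact_mod_cast hp
  have hq' : (0 : ℝ) < q := by exact_mod_cast hq
  have h1' : ((p : ℝ) + q) * cX x = cW x * (p * cX a + q * cX c) := by exact_mod_cast h1
  have h2' : ((p : ℝ) + q) * cY x = cW x * (p * cY a + q * cY c) := by exact_mod_cast h2
  have hw := w_pos hx
  refine ⟨p / (p + q), q / (p + q), by positivity, by positivity, by field_simp, ?_⟩
  apply Prod.ext
  · simp only [Prod.fst_add, Prod.smul_fst, smul_eq_mul, P, k_w1 a ha, k_w1 c hc, Nat.cast_one,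
      div_one]
    field_simp
    linarith
  · simp only [Prod.snd_add, Prod.smul_snd, smul_eq_mul, P, k_w1 a ha, k_w1 c hc, Nat.cast_one,
      div_one]
    field_simp
    linarith

/-- facts about a crossing -/
lemma cross_facts {x : (ℕ × ℕ × ℕ × ℕ) × (ℕ × ℕ × ℕ × ℕ) × ℕ} (h : x ∈ crossL) :
    ∃ h1 : (x.1.1, x.1.2.1) ∈ edgesL, ∃ h2 : (x.2.1.1, x.2.1.2.1) ∈ edgesL,
      ((x.1.1, x.1.2.1), (x.2.1.1, x.2.1.2.1)) ∈ crossP ∧
      toE _ h1 ≠ toE _ h2 ∧
      P x.2.2 ∈ segment ℝ (P x.1.1) (P x.1.2.1) ∧ P x.2.2 ∈ segment ℝ (P x.2.1.1) (P x.2.1.2.1) ∧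
      x.2.2 < 42 ∧ 27 ≤ x.2.2 ∧ ori (P x.1.1) (P x.1.2.1) (P x.2.1.1) ≠ 0 := by
  have hx : ((x.1.1, x.1.2.1), (x.2.1.1, x.2.1.2.1)) ∈ crossP := by
    simp only [crossP, List.mem_append, List.mem_map]
    exact Or.inl ⟨x, h, rfl⟩
  obtain ⟨h1, h2⟩ := mem_cross_edges hx
  have l1 := edges_lt h1
  have l2 := edges_lt h2
  have hd := List.all_eq_true.mp k_div _ h
  simp only [Bool.and_eq_true, Nat.blt_eq, Bool.or_eq_true] at hd
  obtain ⟨⟨⟨⟨d1, d2⟩, d3⟩, d4⟩, d5⟩ := hd
  simp only at l1 l2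
  refine ⟨h1, h2, hx, ?_, div_seg (by omega) (by omega) d3 d1,
    div_seg (by omega) (by omega) d3 d2, d3, by omega, ne_of_pos (by omega) (by omega)
      (by omega) d5⟩
  intro he
  have := toE_inj h1 h2 he
  have hne := List.all_eq_true.mp k_crossNe _ hx
  simp [this] at hne

lemma real_of_lt {i : ℕ} (hi : i < 42) (h27 : 27 ≤ i) (v : Fin 27) : P i ≠ P v := by
  intro h
  have := P_inj hi (by omega) h
  omega

lemma two_lines {a b c d p q : ℝ × ℝ} (h : ori a b c ≠ 0) (h1 : ori a b p = 0)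
    (h2 : ori a b q = 0) (h3 : p ∈ segment ℝ c d) (h4 : q ∈ segment ℝ c d) : p = q := by
  obtain ⟨s, t, hs, ht, hst, rfl⟩ := h3
  obtain ⟨s', t', hs', ht', hst', rfl⟩ := h4
  have e1 : s = 1 - t := by linarith
  have e2 : s' = 1 - t' := by linarith
  subst e1 e2
  have k1 : ori a b ((1 - t) • c + t • d) = (1 - t) * ori a b c + t * ori a b d := by
    simp only [ori, Prod.fst_add, Prod.smul_fst, smul_eq_mul, Prod.snd_add, Prod.smul_snd]
    ring
  have k2 : ori a b ((1 - t') • c + t' • d) = (1 - t') * ori a b c + t' * ori a b d := by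
    simp only [ori, Prod.fst_add, Prod.smul_fst, smul_eq_mul, Prod.snd_add, Prod.smul_snd]
    ring
  rw [k1] at h1
  rw [k2] at h2
  have k3 : (t' - t) * ori a b c = 0 := by
    have k4 : t' * ((1 - t) * ori a b c + t * ori a b d) = 0 := by rw [h1, mul_zero]
    have k5 : t * ((1 - t') * ori a b c + t' * ori a b d) = 0 := by rw [h2, mul_zero]
    linarith
  rcases mul_eq_zero.mp k3 with k | k
  · have : t = t' := by linarith
    rw [this]
  · exact absurd k h

/-- the crossing points are the fifteen listed points -/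
theorem D_crossingPoints : D.crossingPoints = P '' (Set.Ico 27 42) := by
  ext p
  constructor
  · rintro ⟨hp, e, he, f, hf, hne, h1, h2⟩
    obtain ⟨c, d, hc, hd, rfl, rfl, hx⟩ := crosses_iff (e := e) (f := f) ⟨he, hf, hne, p, h1, h2, hp⟩
    rw [D_arc] at h1 h2
    simp only [crossP, List.mem_append, List.mem_map, Prod.mk.injEq] at hx
    rcases hx with ⟨x, hx, rfl, rfl⟩ | ⟨x, hx, rfl, rfl⟩
    · obtain ⟨-, -, -, -, s1, s2, l1, l2, ho⟩ := cross_facts hx
      refine ⟨x.2.2, ⟨l2, l1⟩, ?_⟩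
      exact two_lines ho (seg_ori s1) (seg_ori h1) s2 h2
    · obtain ⟨-, -, -, -, s1, s2, l1, l2, ho⟩ := cross_facts hx
      refine ⟨x.2.2, ⟨l2, l1⟩, ?_⟩
      exact two_lines ho (seg_ori s1) (seg_ori h2) s2 h1
  · rintro ⟨i, ⟨h27, h42⟩, rfl⟩
    have := k_crossIdx i h42 h27
    simp only [List.any_eq_true, Nat.beq_eq] at this
    obtain ⟨x, hx, rfl⟩ := this
    obtain ⟨h1, h2, -, hne, s1, s2, l1, l2, -⟩ := cross_facts hx
    exact ⟨real_of_lt l1 l2, toE _ h1, toE_mem h1, toE _ h2, toE_mem h2, hne,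
      by rw [D_arc]; exact s1, by rw [D_arc]; exact s2⟩

theorem D_crossings : D.crossingPoints.ncard = 15 := by
  rw [D_crossingPoints, Set.InjOn.ncard_image]
  · rw [← Finset.coe_Ico, Set.ncard_coe_finset]; rfl
  · intro i hi j hj h
    exact P_inj hi.2 hj.2 h

end Pool.Agent.R30.C4
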